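import Pool.Agent.Run7.h213.Q.Loc

/-! Two systems in the same containers: without external potential, and with a potential which is
`0` near the origin and `1` far away. -/

set_option autoImplicit false

open MeasureTheory
open scoped Topology

namespace Run7.h213.Q

open Pool.Agent.Helper985.CP (E3 SM Species Wave nrm2 HStable coul ip)
open Pool.Agent.Helper780_CP (nb wx wm cy Sy gr SG mulW)
open Pool.Agent.Helper780_CP.RL2b (loc_upper_g loc_upper_g_nonneg loc_upper_g_le loc_upper_g_smooth)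
open Run7.h213.P Run7.h213.P.K

/-- A family of containers. -/
structure Cont where
  dom : ℝ → Set E3
  A : ℝ
  A_ge : 1 ≤ A
  dom_open : ∀ ℓ, IsOpen (dom ℓ)
  dom_sub : ∀ ℓ, dom ℓ ⊆ {y | ∀ k, -(A * ℓ / 2) < y k ∧ y k < A * ℓ / 2}
  dom_in : ∀ ℓ, 4 ≤ ℓ → ∀ y : E3, (∀ k, |y k| ≤ ℓ / 4) → Metric.closedBall y 1 ⊆ dom ℓ

/-- admissible potentials -/
structure OkU (U : E3 → ℝ) : Prop where
  cont : Continuous U
  nn : ∀ x, 0 ≤ U x
  le : ∀ x, U x ≤ 1

/-- the system with the potential `U` -/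
@[reducible] noncomputable def Cont.env (c : Cont) {U : E3 → ℝ} (h : OkU U) : Env where
  dom := c.dom
  A := c.A
  U := U
  A_ge := c.A_ge
  dom_open := c.dom_open
  dom_sub := c.dom_sub
  dom_in := c.dom_in
  U_cont := h.cont
  U_nn := h.nn
  U_le := h.le

theorem okU0 : OkU (fun _ => 0) := ⟨continuous_const, fun _ => le_rfl, fun _ => zero_le_one⟩

theorem cy01 (y : E3) (r : ℝ) (z : E3) : 0 ≤ cy y r z ∧ cy y r z ≤ 1 :=
  ⟨Real.smoothTransition.nonneg _, Real.smoothTransition.le_one _⟩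

theorem okU1 (R : ℝ) : OkU (fun z => 1 - cy 0 R z ^ 2) where
  cont := continuous_const.sub ((Pool.Agent.Helper780_CP.RH1.cy_smooth 0 R).continuous.pow 2)
  nn := fun z => by
    have := cy01 0 R z
    nlinarith
  le := fun z => by
    have := sq_nonneg (cy 0 R z)
    linarith

section

variable [Env]

variable {S : Type} (D : Species S) {I : Type} [Fintype I] [DecidableEq I] (sp : I → S)

theorem energy_eq (ℓ : ℝ) (Ψ : Wave D I) (hΨ : IsState D sp ℓ Ψ) :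
    energy D sp Ψ = Pool.Agent.Helper985.CP.energy D sp Ψ +
      wm D (fun x => ∑ i, Env.U (x i)) Ψ := by
  unfold energy Pool.Agent.Helper985.CP.energy wm
  rw [← Finset.sum_add_distrib]
  refine Finset.sum_congr rfl fun τ _ => ?_
  have h1 : Integrable (fun x => (∑ i, Pool.Agent.Helper985.CP.kin D sp i (Ψ τ) x) +
      coul D sp x * ‖Ψ τ x‖ ^ 2) :=
    (integrable_finsetSum _ fun i _ => int_kin0 D sp ℓ Ψ hΨ τ i).add (int_state D sp ℓ Ψ hΨ τ).2.2.1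
  have h2 : Integrable (fun x : I → E3 => (∑ i, Env.U (x i)) * ‖Ψ τ x‖ ^ 2) := by
    simp only [Finset.sum_mul]
    exact integrable_finsetSum _ fun i _ => int_U D sp ℓ Ψ hΨ τ i
  rw [← integral_add h1 h2]
  refine integral_congr_ae (Filter.Eventually.of_forall fun x => ?_)
  simp only
  unfold kin
  rw [Finset.sum_add_distrib, ← Finset.sum_mul]
  ring

/-- lower bound of the free energy of mixtures -/
theorem var_ge (ℓ T : ℝ) (hT : 0 < T) (Z : ℝ) (hZ0 : 0 < Z) (hZ : ∀ z ∈ peierls D sp ℓ T, z ≤ Z)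
    {k : ℕ} (p : Fin k → ℝ) (hp : ∀ j, 0 ≤ p j) (Φ : Fin k → Wave D I)
    (hΦ : ∀ j, IsState D sp ℓ (Φ j)) (hsg : SG D Φ) :
    T * ((∑ j, p j * nrm2 D (Φ j)) * Real.log (∑ j, p j * nrm2 D (Φ j))) -
      T * ((∑ j, p j * nrm2 D (Φ j)) * Real.log Z) -
      T * ∑ j, p j * (nrm2 D (Φ j) * Real.log (p j)) ≤ ∑ j, p j * energy D sp (Φ j) := by
  have htb := trace_bound D sp ℓ T hT Z hZ Φ hΦ 1 zero_le_one (by
        intro γ
        rw [one_mul]
        exact hsg γ)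
  rw [one_mul] at htb
  have hez : ∀ j, nrm2 D (Φ j) = 0 → -(energy D sp (Φ j)) / T = 0 := by
    intro j hj
    have h1 : Φ j = 0 := by
      by_contra hne
      exact (nrm2_pos D sp ℓ _ (hΦ j) hne).ne' hj
    have h3 : (0 : Wave D I) = mulW D (fun _ => 0) (Φ j) := by
      funext τ x
      simp [mulW]
    have h4 : energy D sp (Φ j) = 0 := by
      rw [h1, h3, RL0.energy_const]
      ring
    rw [h4]; simp
  have hn0 : ∀ j, 0 ≤ nrm2 D (Φ j) := fun j => Pool.Agent.Helper780_CP.nrm2_nn D _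
  have hgb := Pool.Agent.Helper780_CP.RG1.gibbs_w p (fun j => nrm2 D (Φ j))
    (fun j => -(energy D sp (Φ j)) / T) hp hn0 hez Z hZ0 (by
      refine le_trans (le_of_eq ?_) htb
      refine Finset.sum_congr rfl fun j _ => ?_
      congr 2
      rw [div_div, mul_comm T])
  have t1 : ∑ j, p j * (-(energy D sp (Φ j)) / T) = -(∑ j, p j * energy D sp (Φ j)) / T := by
    rw [← Finset.sum_neg_distrib, Finset.sum_div]
    refine Finset.sum_congr rfl fun j _ => ?_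
    ring
  rw [t1, div_le_iff₀ hT] at hgb
  linarith

end


/-! Notions for a container given as a set. -/

section

variable {S : Type} (D : Species S) {I : Type} [Fintype I] [DecidableEq I] (sp : I → S)

/-- states of the particles `I` in the container `Ω` -/
structure StIn (Ω : Set E3) (Ψ : Wave D I) : Prop where
  smooth : ∀ τ, ContDiff ℝ SM (Ψ τ)
  compact : ∀ τ, HasCompactSupport (Ψ τ)
  support : ∀ τ, tsupport (Ψ τ) ⊆ {x | ∀ i, x i ∈ Ω}
  spin : ∀ τ, Ψ τ ≠ 0 → ∀ i, τ i ∈ D.spin (sp i)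
  symm : ∀ i j, i ≠ j → sp i = sp j → ∀ τ x,
    Ψ (fun k => τ (Equiv.swap i j k)) (fun k => x (Equiv.swap i j k)) =
      Pool.Agent.Helper985.CP.exch D (sp i) * Ψ τ x

/-- energy with a potential -/
noncomputable def enU (U : E3 → ℝ) (Ψ : Wave D I) : ℝ :=
  Pool.Agent.Helper985.CP.energy D sp Ψ + wm D (fun x => ∑ i, U (x i)) Ψ

/-- finite orthonormal families of states -/
def OrIn (Ω : Set E3) {k : ℕ} (ψ : Fin k → Wave D I) : Prop :=
  (∀ i, StIn D sp Ω (ψ i)) ∧ ∀ i j, ip D (ψ i) (ψ j) = if i = j then 1 else 0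

/-- Peierls sums -/
def peU (U : E3 → ℝ) (Ω : Set E3) (T : ℝ) : Set ℝ :=
  {z : ℝ | ∃ (k : ℕ) (ψ : Fin k → Wave D I), OrIn D sp Ω ψ ∧
    z = ∑ j, Real.exp (-(enU D sp U (ψ j)) / T)}

/-- near-minimizers of the free energy -/
structure NEU (U : E3 → ℝ) (Ω : Set E3) (T η Z : ℝ) {k : ℕ} (p : Fin k → ℝ)
    (ψ : Fin k → Wave D I) : Prop where
  state : ∀ j, StIn D sp Ω (ψ j)
  sg : SG D ψ
  nrm : ∀ j, nrm2 D (ψ j) = 1
  p0 : ∀ j, 0 ≤ p j
  p1 : ∑ j, p j = 1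
  Zpos : 0 < Z
  Zle : ∀ z ∈ peU D sp U Ω T, z ≤ Z
  free : ∑ j, (p j * enU D sp U (ψ j) + T * (p j * Real.log (p j))) ≤ -T * Real.log Z + η

end

section

variable (c : Cont) {U : E3 → ℝ} (h : OkU U)

variable {S : Type} (D : Species S) {I : Type} [Fintype I] [DecidableEq I] (sp : I → S)

theorem st_iff (ℓ : ℝ) (Ψ : Wave D I) :
    @IsState (c.env h) S D I _ _ sp ℓ Ψ ↔ StIn D sp (c.dom ℓ) Ψ :=
  ⟨fun h => by
      obtain ⟨h1, h2, h3, h4, h5⟩ := h
      exact ⟨h1, h2, h3, h4, h5⟩,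
    fun h' => by
      obtain ⟨h1, h2, h3, h4, h5⟩ := h'
      exact @IsState.mk (c.env h) S D I _ _ sp ℓ Ψ h1 h2 h3 h4 h5⟩

theorem en_eq (ℓ : ℝ) (Ψ : Wave D I) (hΨ : StIn D sp (c.dom ℓ) Ψ) :
    @energy (c.env h) S D I _ _ sp Ψ = enU D sp U Ψ :=
  @energy_eq (c.env h) S D I _ _ sp ℓ Ψ ((st_iff c h D sp ℓ Ψ).2 hΨ)

theorem pe_eq (ℓ T : ℝ) :
    @peierls (c.env h) S D I _ _ sp ℓ T = peU D sp U (c.dom ℓ) T := by
  ext z
  constructor
  · rintro ⟨k, ψ, ⟨h1, h2⟩, rfl⟩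
    have h3 : ∀ i, StIn D sp (c.dom ℓ) (ψ i) := fun i => (st_iff c h D sp ℓ _).1 (h1 i)
    refine ⟨k, ψ, ⟨h3, h2⟩, ?_⟩
    refine Finset.sum_congr rfl fun j _ => ?_
    rw [en_eq c h D sp ℓ _ (h3 j)]
  · rintro ⟨k, ψ, ⟨h1, h2⟩, rfl⟩
    refine ⟨k, ψ, ⟨fun i => (st_iff c h D sp ℓ _).2 (h1 i), h2⟩, ?_⟩
    refine Finset.sum_congr rfl fun j _ => ?_
    rw [en_eq c h D sp ℓ _ (h1 j)]

theorem ne_iff (ℓ T η Z : ℝ) {k : ℕ} (p : Fin k → ℝ) (ψ : Fin k → Wave D I) :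
    @NE (c.env h) S D I _ _ sp ℓ T η Z k p ψ ↔ NEU D sp U (c.dom ℓ) T η Z p ψ := by
  constructor
  · rintro ⟨h1, h2, h3, h4, h5, h6, h7, h8⟩
    have h9 : ∀ i, StIn D sp (c.dom ℓ) (ψ i) := fun i => (st_iff c h D sp ℓ _).1 (h1 i)
    refine ⟨h9, h2, h3, h4, h5, h6, ?_, ?_⟩
    · rw [← pe_eq c h D sp]
      exact h7
    · refine le_trans (le_of_eq ?_) h8
      refine Finset.sum_congr rfl fun j _ => ?_
      rw [en_eq c h D sp ℓ _ (h9 j)]
  · rintro ⟨h1, h2, h3, h4, h5, h6, h7, h8⟩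
    refine @NE.mk (c.env h) S D I _ _ sp ℓ T η Z k p ψ
      (fun i => (st_iff c h D sp ℓ _).2 (h1 i)) h2 h3 h4 h5 h6 ?_ ?_
    · rw [pe_eq c h D sp]
      exact h7
    · refine le_trans (le_of_eq ?_) h8
      refine Finset.sum_congr rfl fun j _ => ?_
      rw [en_eq c h D sp ℓ _ (h1 j)]

end

end Run7.h213.Q
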