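import Pool.Agent.Run7.h213.Q.Mom

/-! Canonical free energy and near-minimizers in terms of the infimum over mixtures of orthonormal
states, in dilates of a fixed bounded open set. -/

set_option autoImplicit false

open MeasureTheory
open scoped Topology Pointwise

namespace Run7.h213.Q

open Pool.Agent.Helper985.CP (E3 SM Species Wave nrm2 HStable coul ip)
open Pool.Agent.Helper780_CP (nb wx wm cy Sy gr SG mulW trW)
open Pool.Agent.Helper780_CP.RL2b (loc_upper_g loc_upper_g_nonneg loc_upper_g_le loc_upper_g_smooth)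
open Run7.h213.P Run7.h213.P.K

section

variable {S : Type} (D : Species S) {I : Type} [Fintype I] [DecidableEq I] (sp : I → S)

/-- the free energies of the mixtures of orthonormal states in the container `Ω` -/
def freeSet (Ω : Set E3) (T : ℝ) : Set ℝ :=
  {F : ℝ | ∃ (k : ℕ) (ψ : Fin k → Wave D I) (p : Fin k → ℝ), OrIn D sp Ω ψ ∧ (∀ j, 0 ≤ p j) ∧
    ∑ j, p j = 1 ∧
    F = ∑ j, (p j * Pool.Agent.Helper985.CP.energy D sp (ψ j) + T * (p j * Real.log (p j)))}

/-- the canonical free energy `-T log Tr exp (-H/T)` in the container `Ω`, by the Gibbs variational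
principle -/
noncomputable def fe (Ω : Set E3) (T : ℝ) : ℝ := sInf (freeSet D sp Ω T)

theorem enU0 (Ψ : Wave D I) :
    enU D sp (fun _ => 0) Ψ = Pool.Agent.Helper985.CP.energy D sp Ψ := by
  unfold enU wm
  simp

end

section

variable (c : Cont)

variable {S : Type} [Fintype S] [DecidableEq S] (D : Species S)
  {I : Type} [Fintype I] [DecidableEq I] (sp : I → S)

theorem or_sg (ℓ : ℝ) {k : ℕ} (ψ : Fin k → Wave D I) (h : OrIn D sp (c.dom ℓ) ψ) : SG D ψ := by
  intro γ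
  have hstate : ∀ j, Pool.Agent.Helper985.CP.IsState D sp (c.A * ℓ) (trW D (@hv (c.env okU0) ℓ) (ψ j)) :=
    fun j => @br_state (c.env okU0) S D I _ _ sp ℓ (ψ j) ((st_iff c okU0 D sp ℓ _).2 (h.1 j))
  have h1 := Pool.Agent.Helper985.CP.cu_comb D sp (c.A * ℓ)
    (fun j => trW D (@hv (c.env okU0) ℓ) (ψ j))
    ⟨hstate, fun i j => by rw [tr_ip]; exact h.2 i j⟩ γ
  have h2 : nrm2 D (fun τ x => ∑ a, γ a * trW D (@hv (c.env okU0) ℓ) (ψ a) τ x) =
      nrm2 D (fun τ x => ∑ a, γ a * ψ a τ x) :=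
    tr_nrm2 D (@hv (c.env okU0) ℓ) (fun τ x => ∑ a, γ a * ψ a τ x)
  rw [← h2]
  exact h1.le

theorem or_nrm {Ω : Set E3} {k : ℕ} (ψ : Fin k → Wave D I) (h : OrIn D sp Ω ψ) (j : Fin k) :
    nrm2 D (ψ j) = 1 := by
  have h1 := h.2 j j
  rw [if_pos rfl, ip_self_nrm] at h1
  exact_mod_cast h1

theorem free_bdd (hD : D.Valid) (hst : HStable D) (ℓ T : ℝ) (hℓ : 0 < ℓ) (hT : 0 < T) :
    BddBelow (freeSet D sp (c.dom ℓ) T) := by
  obtain ⟨B, hB⟩ := @peierls_bddP (c.env okU0) S _ _ D I _ _ sp hD hst ℓ T hℓ hT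
  rw [pe_eq c okU0 D sp] at hB
  refine ⟨-T * Real.log (max B 1), ?_⟩
  rintro F ⟨k, ψ, p, hψ, hp0, hp1, rfl⟩
  have h1 := var_ge_n c okU0 D sp ℓ T hT (max B 1) (by positivity)
    (fun z hz => (hB hz).trans (le_max_left _ _)) p hp0 ψ hψ.1 (or_sg c D sp ℓ ψ hψ)
  simp only [or_nrm D sp ψ hψ, mul_one, hp1, Real.log_one, one_mul, enU0] at h1
  rw [Finset.sum_add_distrib, ← Finset.mul_sum]
  linarith

theorem fe_ne (hD : D.Valid) (hst : HStable D) (ℓ T η : ℝ) (hℓ : 0 < ℓ) (hT : 0 < T)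
    {k : ℕ} (ψ : Fin k → Wave D I) (p : Fin k → ℝ) (hψ : OrIn D sp (c.dom ℓ) ψ)
    (hp0 : ∀ j, 0 ≤ p j) (hp1 : ∑ j, p j = 1)
    (hF : ∑ j, (p j * Pool.Agent.Helper985.CP.energy D sp (ψ j) + T * (p j * Real.log (p j))) ≤
      fe D sp (c.dom ℓ) T + η) :
    NEU D sp (fun _ => 0) (c.dom ℓ) T η (Real.exp (-(fe D sp (c.dom ℓ) T) / T)) p ψ := by
  refine ⟨hψ.1, or_sg c D sp ℓ ψ hψ, or_nrm D sp ψ hψ, hp0, hp1, Real.exp_pos _, ?_, ?_⟩
  · rintro z ⟨m, φ, hφ, rfl⟩
    rcases Nat.eq_zero_or_pos m with hm | hm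
    · subst hm
      simpa using (Real.exp_pos _).le
    obtain ⟨W, hW⟩ : ∃ W, W = ∑ j, Real.exp (-(Pool.Agent.Helper985.CP.energy D sp (φ j)) / T) :=
      ⟨_, rfl⟩
    have hW0 : 0 < W := by
      rw [hW]
      exact Finset.sum_pos (fun j _ => Real.exp_pos _) ⟨⟨0, hm⟩, Finset.mem_univ _⟩
    simp only [enU0]
    rw [← hW]
    have hmem : -T * Real.log W ∈ freeSet D sp (c.dom ℓ) T := by
      refine ⟨m, φ, fun j => Real.exp (-(Pool.Agent.Helper985.CP.energy D sp (φ j)) / T) / W, hφ,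
        fun j => by positivity, ?_, ?_⟩
      · rw [← Finset.sum_div, ← hW]
        exact div_self hW0.ne'
      · have e1 : ∀ j, Real.exp (-(Pool.Agent.Helper985.CP.energy D sp (φ j)) / T) / W *
              Pool.Agent.Helper985.CP.energy D sp (φ j) +
            T * (Real.exp (-(Pool.Agent.Helper985.CP.energy D sp (φ j)) / T) / W *
              Real.log (Real.exp (-(Pool.Agent.Helper985.CP.energy D sp (φ j)) / T) / W)) =
            (Real.exp (-(Pool.Agent.Helper985.CP.energy D sp (φ j)) / T) / W) *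
              (-T * Real.log W) := by
          intro j
          rw [Real.log_div (Real.exp_pos _).ne' hW0.ne', Real.log_exp]
          field_simp
          ring
        simp only [e1]
        rw [← Finset.sum_mul, ← Finset.sum_div, ← hW, div_self hW0.ne', one_mul]
    have h1 := csInf_le (free_bdd c D sp hD hst ℓ T hℓ hT) hmem
    rw [← Real.log_le_iff_le_exp hW0, le_div_iff₀ hT]
    unfold fe
    linarith
  · simp only [enU0]
    refine hF.trans (le_of_eq ?_)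
    rw [Real.log_exp]
    field_simp

end

/-- containers given by the dilates of a bounded open set around the origin -/
theorem dil_cont (Ω₀ : Set E3) (ho : IsOpen Ω₀) (hb : Bornology.IsBounded Ω₀)
    (h0 : (0 : E3) ∈ Ω₀) : ∃ (c : Cont) (a : ℝ), 0 < a ∧ ∀ l : ℝ, 0 < l → c.dom (a * l) = l • Ω₀ := by
  obtain ⟨ε, hε, hεs⟩ := Metric.isOpen_iff.1 ho 0 h0
  obtain ⟨b, hb0, hbs⟩ := hb.subset_ball_lt 0 0
  obtain ⟨a, ha⟩ : ∃ a : ℝ, a = ε / 4 := ⟨_, rfl⟩
  have ha0 : 0 < a := by rw [ha]; positivity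
  have hcube : ∀ y : E3, (∀ k, |y k| ≤ a) → y ∈ Ω₀ := by
    intro y hy
    refine hεs ?_
    rw [mem_ball_zero_iff, EuclideanSpace.norm_eq]
    have h1 : ∑ i, ‖y i‖ ^ 2 ≤ 3 * a ^ 2 := by
      calc ∑ i, ‖y i‖ ^ 2 ≤ ∑ _i : Fin 3, a ^ 2 := by
            refine Finset.sum_le_sum fun i _ => ?_
            rw [Real.norm_eq_abs]
            exact pow_le_pow_left₀ (abs_nonneg _) (hy i) 2
        _ = 3 * a ^ 2 := by simp
    calc √(∑ i, ‖y i‖ ^ 2) ≤ √((2 * a) ^ 2) := Real.sqrt_le_sqrt (by nlinarith)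
      _ = 2 * a := Real.sqrt_sq (by positivity)
      _ < ε := by rw [ha]; linarith
  refine ⟨⟨fun ℓ => {y | 0 < ℓ ∧ ((2 * a) * ℓ⁻¹) • y ∈ Ω₀}, max 1 (b / a), le_max_left _ _, ?_, ?_,
    ?_⟩, 2 * a, by positivity, ?_⟩
  · intro ℓ
    rcases le_or_gt ℓ 0 with hℓ | hℓ
    · have : {y : E3 | 0 < ℓ ∧ ((2 * a) * ℓ⁻¹) • y ∈ Ω₀} = ∅ := by
        ext y
        simp only [Set.mem_ofPred_eq, Set.mem_empty_iff_false, iff_false, not_and]
        intro h
        linarith
      rw [this]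
      exact isOpen_empty
    · have : {y : E3 | 0 < ℓ ∧ ((2 * a) * ℓ⁻¹) • y ∈ Ω₀} =
          (fun y : E3 => ((2 * a) * ℓ⁻¹) • y) ⁻¹' Ω₀ := by
        ext y
        simp [hℓ]
      rw [this]
      exact ho.preimage (by fun_prop)
  · rintro ℓ y ⟨hℓ, hy⟩ k
    have h1 := hbs hy
    rw [mem_ball_zero_iff] at h1
    have h2 : |((2 * a) * ℓ⁻¹) * y k| < b := by
      refine lt_of_le_of_lt ?_ h1
      have := PiLp.norm_apply_le (((2 * a) * ℓ⁻¹) • y) k
      rwa [PiLp.smul_apply, smul_eq_mul, Real.norm_eq_abs] at this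
    rw [abs_mul, abs_of_pos (show 0 < 2 * a * ℓ⁻¹ by positivity)] at h2
    have h3 : |y k| < b / a * ℓ / 2 := by
      have h4 : 2 * a * ℓ⁻¹ * |y k| = (2 * a * |y k|) / ℓ := by field_simp
      rw [h4, div_lt_iff₀ hℓ] at h2
      rw [div_mul_eq_mul_div, div_div, lt_div_iff₀ (by positivity)]
      linarith
    have h5 : b / a * ℓ / 2 ≤ max 1 (b / a) * ℓ / 2 := by
      have := le_max_right 1 (b / a)
      have := mul_le_mul_of_nonneg_right this hℓ.le
      linarith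
    exact abs_lt.1 (h3.trans_le h5)
  · intro ℓ hℓ y hy z hz
    have hℓ0 : 0 < ℓ := by linarith
    refine ⟨hℓ0, hcube _ fun k => ?_⟩
    rw [PiLp.smul_apply, smul_eq_mul, abs_mul, abs_of_pos (show 0 < 2 * a * ℓ⁻¹ by positivity)]
    have h1 : |z k| ≤ ℓ / 2 := by
      rw [mem_closedBall_iff_norm] at hz
      have h2 := (PiLp.norm_apply_le (z - y) k).trans hz
      rw [PiLp.sub_apply, Real.norm_eq_abs] at h2
      have h3 := hy k
      have h4 : |z k| ≤ |z k - y k| + |y k| := by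
        have := abs_add_le (z k - y k) (y k)
        rwa [sub_add_cancel] at this
      linarith
    calc 2 * a * ℓ⁻¹ * |z k| ≤ 2 * a * ℓ⁻¹ * (ℓ / 2) := by gcongr
      _ = a := by field_simp
  · intro l hl
    have e1 : 2 * a * (2 * a * l)⁻¹ = l⁻¹ := by field_simp
    ext y
    simp only [Set.mem_ofPred_eq, e1]
    rw [Set.mem_smul_set_iff_inv_smul_mem₀ hl.ne']
    constructor
    · exact fun h => h.2
    · exact fun h => ⟨by positivity, h⟩

end Run7.h213.Q
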