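import Pool.Agent.Run7.h213.P.KRH10
import Pool.Agent.Helper780_CP.BSet

/-! Uniform local bounds for near-minimizers of the free energy in general containers. -/

set_option autoImplicit false

open MeasureTheory
open scoped Topology

namespace Run7.h213.Q

open Pool.Agent.Helper985.CP (E3 SM Species Wave nrm2 HStable coul ip)
open Pool.Agent.Helper780_CP (nb wx cy Sy gr RB Ker)
open Run7.h213.P Run7.h213.P.K

/-- finite cover of a ball by balls of radius 12 -/
theorem coverR (R : ℝ) : ∃ F : Finset E3, (∀ p ∈ F, ‖p‖ ≤ R) ∧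
    ∀ v : E3, ‖v‖ ≤ R → ∃ p ∈ F, ‖v - p‖ < 12 := by
  obtain ⟨t, ht1, htf, ht2⟩ := (isCompact_closedBall (0 : E3) R).finite_cover_balls
    (e := 12) (by norm_num)
  refine ⟨htf.toFinset, fun p hp => ?_, fun v hv => ?_⟩
  · have := ht1 (htf.mem_toFinset.1 hp)
    simpa using this
  · have hm : v ∈ Metric.closedBall (0 : E3) R := by simpa using hv
    obtain ⟨p, hp, hv2⟩ := Set.mem_iUnion₂.1 (ht2 hm)
    refine ⟨p, htf.mem_toFinset.2 hp, ?_⟩
    rw [← dist_eq_norm]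
    exact hv2

variable [Env]

theorem kb_int {S : Type} (D : Species S) {I : Type} [Fintype I] [DecidableEq I] (sp : I → S)
    (ℓ : ℝ) (Ψ : Wave D I) (hΨ : IsState D sp ℓ Ψ) (y : E3) (R : ℝ) (τ : I → Fin D.g) (j : I) :
    Integrable (fun x : I → E3 => if ‖x j - y‖ < R then kin D sp j (Ψ τ) x else 0) := by
  have h1 := (int_state D sp ℓ Ψ hΨ τ).2.1 j
  have hm : MeasurableSet {x : I → E3 | ‖x j - y‖ < R} := by
    refine measurableSet_lt ?_ measurable_const
    fun_prop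
  refine (h1.indicator hm).congr (Filter.Eventually.of_forall fun x => ?_)
  simp only [Set.indicator_apply, Set.mem_ofPred_eq]

theorem kb_cover {S : Type} (D : Species S) (hD : D.Valid) {I : Type} [Fintype I] [DecidableEq I]
    (sp : I → S) (ℓ : ℝ) (Ψ : Wave D I) (hΨ : IsState D sp ℓ Ψ) (R : ℝ) (F : Finset E3)
    (hF : ∀ v : E3, ‖v‖ ≤ R → ∃ p ∈ F, ‖v - p‖ < 12) :
    kb D sp 0 R Ψ ≤ ∑ p ∈ F, kb D sp p 12 Ψ := by
  unfold kb
  rw [Finset.sum_comm]
  refine Finset.sum_le_sum fun τ _ => ?_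
  rw [← integral_finsetSum _ fun p _ => integrable_finsetSum _ fun j _ =>
    kb_int D sp ℓ Ψ hΨ p 12 τ j]
  refine integral_mono (integrable_finsetSum _ fun j _ => kb_int D sp ℓ Ψ hΨ 0 R τ j)
    (integrable_finsetSum _ fun p _ => integrable_finsetSum _ fun j _ =>
    kb_int D sp ℓ Ψ hΨ p 12 τ j) fun x => ?_
  simp only
  rw [Finset.sum_comm]
  refine Finset.sum_le_sum fun j _ => ?_
  by_cases h : ‖x j - 0‖ < R
  · rw [if_pos h]
    rw [sub_zero] at h
    obtain ⟨p, hp, hp2⟩ := hF (x j) h.le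
    have h2 := Finset.single_le_sum (f := fun p => if ‖x j - p‖ < 12 then kin D sp j (Ψ τ) x else 0)
      (fun q _ => by
        split_ifs
        · exact kinP_nn D sp hD j _ _
        · exact le_rfl) hp
    simp only [if_pos hp2] at h2
    exact h2
  · rw [if_neg h]
    refine Finset.sum_nonneg fun q _ => ?_
    split_ifs
    · exact kinP_nn D sp hD j _ _
    · exact le_rfl

omit [Env] in
theorem nb_cover {I : Type} [Fintype I] (R : ℝ) (F : Finset E3)
    (hF : ∀ v : E3, ‖v‖ ≤ R → ∃ p ∈ F, ‖v - p‖ < 12) (x : I → E3) :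
    nb 0 R x ≤ ∑ p ∈ F, nb p 12 x := by
  unfold nb
  rw [Finset.sum_comm]
  refine Finset.sum_le_sum fun j _ => ?_
  by_cases h : ‖x j - 0‖ ≤ R
  · rw [if_pos h]
    rw [sub_zero] at h
    obtain ⟨p, hp, hp2⟩ := hF (x j) h
    have h2 := Finset.single_le_sum (f := fun p => if ‖x j - p‖ ≤ 12 then (1 : ℝ) else 0)
      (fun q _ => by
        split_ifs <;> norm_num) hp
    simp only [if_pos hp2.le] at h2
    exact h2
  · rw [if_neg h]
    refine Finset.sum_nonneg fun q _ => ?_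
    split_ifs <;> norm_num

theorem WI_nbpow {S : Type} (D : Species S) {I : Type} [Fintype I] [DecidableEq I] (sp : I → S)
    (ℓ : ℝ) (y : E3) (R a : ℝ) (ha : 0 ≤ a) (Ψ : Wave D I) (hΨ : IsState D sp ℓ Ψ)
    (τ : I → Fin D.g) : Integrable (fun x : I → E3 => nb y R x ^ a * ‖Ψ τ x‖ ^ 2) := by
  have hm : Measurable (fun x : I → E3 => nb y R x) := by
    unfold nb
    refine Finset.measurable_sum _ fun i _ => ?_
    refine Measurable.ite ?_ measurable_const measurable_const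
    exact measurableSet_le (by fun_prop) measurable_const
  refine (int_state D sp ℓ Ψ hΨ τ).1.bdd_mul (c := (Fintype.card I : ℝ) ^ a)
    (hm.pow_const a).aestronglyMeasurable (Filter.Eventually.of_forall fun x => ?_)
  have h0 : 0 ≤ nb y R x := by
    unfold nb
    exact Finset.sum_nonneg fun i _ => by split_ifs <;> norm_num
  have h1 : nb y R x ≤ Fintype.card I := by
    unfold nb
    calc (∑ i : I, if ‖x i - y‖ ≤ R then (1 : ℝ) else 0) ≤ ∑ _i : I, (1 : ℝ) :=
          Finset.sum_le_sum fun i _ => by split_ifs <;> norm_num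
      _ = _ := by simp
  rw [Real.norm_of_nonneg (Real.rpow_nonneg h0 a)]
  exact Real.rpow_le_rpow h0 h1 ha

/-- Uniform local bounds on the number of particles and the kinetic energy. -/
theorem local_bds {S : Type} [Fintype S] [DecidableEq S] (D : Species S) (hD : D.Valid)
    (hf : ∀ s, D.charge s < 0 → D.fermion s = true)
    (T V ρ : ℝ) (hT : 0 < T) (hV : 0 < V) (hρ : 0 < ρ) (R : ℝ) (hR : 0 < R) :
    ∃ C : ℝ, 0 < C ∧ ∀ {I : Type} [Fintype I] [DecidableEq I] (sp : I → S) (ℓ : ℝ),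
      4 * (R + 20) ≤ ℓ →
      ℓ ^ 3 ≤ V * (Fintype.card I : ℝ) → (Fintype.card I : ℝ) ≤ ρ * ℓ ^ 3 →
      (∑ i, D.charge (sp i) = 0) → ∀ η Z : ℝ, 0 ≤ η →
      η * (1 + (Fintype.card I : ℝ)) ^ 2 ≤ 1 → ∀ {k : ℕ} (p : Fin k → ℝ)
      (ψ : Fin k → Wave D I), NE D sp ℓ T η Z p ψ →
      wx D p ψ (nb 0 R) ≤ C ∧ ∑ j, p j * kb D sp 0 R (ψ j) ≤ C := by
  have hst := Pool.Agent.Helper780_CP.hstable D hD hf
  obtain ⟨cm, hcm0, hcm⟩ := Pool.Agent.Helper780_CP.exists_cm D hD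
  obtain ⟨z, hz0, hz⟩ : ∃ z : ℝ, 0 ≤ z ∧ ∀ s, |D.charge s| ≤ z := by
    refine ⟨∑ s, |D.charge s|, Finset.sum_nonneg fun s _ => abs_nonneg _, fun s => ?_⟩
    exact Finset.single_le_sum (f := fun s => |D.charge s|) (fun t _ => abs_nonneg _)
      (Finset.mem_univ s)
  obtain ⟨K₁, C₁, hK₁, hC₁, hRB⟩ := Pool.Agent.Helper780_CP.RC2.ren_ball z hz0
  have hRB' : RB z K₁ C₁ := fun c x χ h1 h2 h3 => hRB c x χ h1 h2 h3
  obtain ⟨F, hF2, hF⟩ := Pool.Agent.Helper780_CP.cover12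
  obtain ⟨a, b, l, hK⟩ := Pool.Agent.Helper780_CP.RK0.ker_exists
  obtain ⟨CL, m, hCL, HL⟩ := RH10.lawT D hD hst hf z cm K₁ C₁ hcm0
    (fun s => ⟨hcm s, hz s⟩) hK₁ hC₁ hRB' F hF hF2 T V ρ hT hV hρ a b l hK
  obtain ⟨CN, hCN, HN⟩ := RNL.num_law D hD hf z cm K₁ C₁ hcm0
        (fun s => ⟨hcm s, hz s⟩) hK₁ hC₁ hRB' F hF
  obtain ⟨G, hG1, hG2⟩ := coverR R
  obtain ⟨B, hB⟩ : ∃ B : ℝ, B = ∑ p ∈ F, CL / (1 / 4) ^ m := ⟨_, rfl⟩
  have hB0 : 0 ≤ B := by rw [hB]; positivity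
  refine ⟨(G.card : ℝ) * (1 + CN * (1 + B)) + (G.card : ℝ) * B + 1, by positivity, ?_⟩
  intro I _ _ sp ℓ hℓ hV1 hcard hneu η Z hη hη1 k p ψ hNE
  have h4 : 4 ≤ ℓ := by linarith
  have hp0 := hNE.p0
  have hst' := hNE.state
  -- the law at the points of the cover
  have hlaw : ∀ q ∈ G, ∀ v ∈ F, 0 ≤ ∑ j, p j * MM D sp K₁ (q + (1 : ℝ) • v) (1 / 4) (ψ j) ∧
      ∑ j, p j * MM D sp K₁ (q + (1 : ℝ) • v) (1 / 4) (ψ j) ≤ CL / (1 / 4) ^ m := by
    intro q hq v hv
    refine HL sp ℓ h4 hV1 hcard hneu η Z hη hη1 p ψ hNE _ (1 / 4) (by norm_num) (by norm_num) ?_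
    intro w hw
    rw [Metric.mem_closedBall, dist_eq_norm] at hw
    have h1 : ‖w‖ ≤ R + 16 := by
      have e : w = (w - (q + (1 : ℝ) • v)) + q + v := by rw [one_smul]; abel
      calc ‖w‖ = ‖(w - (q + (1 : ℝ) • v)) + q + v‖ := by rw [← e]
        _ ≤ ‖w - (q + (1 : ℝ) • v)‖ + ‖q‖ + ‖v‖ := norm_add₃_le
        _ ≤ 16 * (1 / 4) + R + 12 := by
          have := hG1 q hq
          have := hF2 v hv
          linarith
        _ = R + 16 := by ring
    refine Env.dom_in ℓ h4 w (fun k => ?_) (Metric.mem_closedBall_self zero_le_one)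
    have h2 : ‖w k‖ ≤ ‖w‖ := PiLp.norm_apply_le w k
    rw [Real.norm_eq_abs] at h2
    linarith
  have hMM : ∀ q ∈ G, ∑ j, p j * ∑ v ∈ F, MM D sp K₁ (q + (1 : ℝ) • v) (1 / 4) (ψ j) ≤ B := by
    intro q hq
    have e : ∑ j, p j * ∑ v ∈ F, MM D sp K₁ (q + (1 : ℝ) • v) (1 / 4) (ψ j) =
        ∑ v ∈ F, ∑ j, p j * MM D sp K₁ (q + (1 : ℝ) • v) (1 / 4) (ψ j) := by
      rw [Finset.sum_comm]
      exact Finset.sum_congr rfl fun j _ => Finset.mul_sum _ _ _
    rw [e, hB]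
    exact Finset.sum_le_sum fun v hv => (hlaw q hq v hv).2
  have hkl : ∀ q ∈ G, ∑ j, p j * kb D sp q 12 (ψ j) ≤ B := by
    intro q hq
    refine le_trans (Finset.sum_le_sum fun j _ => mul_le_mul_of_nonneg_left ?_ (hp0 j)) (hMM q hq)
    obtain ⟨-, -, -, -, -, h6⟩ := HN sp ℓ (ψ j) (hst' j) (hNE.nrm j) q 1 one_pos le_rfl
    rw [mul_one] at h6
    refine h6.trans (Finset.sum_le_sum fun v _ => ?_)
    obtain ⟨-, h2, -⟩ := HN sp ℓ (ψ j) (hst' j) (hNE.nrm j) (q + (1 : ℝ) • v) (1 / 4)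
      (by norm_num) (by norm_num)
    unfold MM
    linarith
  have hnb : ∀ q ∈ G, wx D p ψ (nb q 12) ≤ 1 + CN * (1 + B) := by
    intro q hq
    have h1 : wx D p ψ (nb q 12) ≤ ∑ j, p j * (CN * (1 + ∑ v ∈ F,
        MM D sp K₁ (q + (1 : ℝ) • v) (1 / 4) (ψ j))) := by
      unfold wx
      refine Finset.sum_le_sum fun j _ => mul_le_mul_of_nonneg_left ?_ (hp0 j)
      obtain ⟨-, -, -, -, h5, -⟩ := HN sp ℓ (ψ j) (hst' j) (hNE.nrm j) q 1 one_pos le_rfl
      rw [mul_one] at h5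
      refine le_trans ?_ h5
      unfold Pool.Agent.Helper780_CP.wm
      refine Finset.sum_le_sum fun τ _ => ?_
      have i1 := WI_nbpow D sp ℓ q 12 1 zero_le_one (ψ j) (hst' j) τ
      have i2 := WI_nbpow D sp ℓ q 12 ((5 : ℝ) / 3) (by norm_num) (ψ j) (hst' j) τ
      simp only [Real.rpow_one] at i1
      refine integral_mono i1 i2 fun x => ?_
      refine mul_le_mul_of_nonneg_right ?_ (sq_nonneg _)
      have h0 : nb q 12 x = 0 ∨ 1 ≤ nb q 12 x := by
        by_cases h : ∃ i, ‖x i - q‖ ≤ 12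
        · right
          obtain ⟨i, hi⟩ := h
          unfold nb
          have := Finset.single_le_sum (f := fun i => if ‖x i - q‖ ≤ 12 then (1 : ℝ) else 0)
            (fun q _ => by
              split_ifs <;> norm_num) (Finset.mem_univ i)
          simp only [if_pos hi] at this
          exact this
        · left
          push Not at h
          unfold nb
          exact Finset.sum_eq_zero fun i _ => by rw [if_neg (not_le.2 (h i))]
      rcases h0 with h0 | h0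
      · show nb q 12 x ≤ nb q 12 x ^ ((5 : ℝ) / 3)
        rw [h0]
        exact Real.rpow_nonneg le_rfl _
      · calc nb q 12 x = nb q 12 x ^ (1 : ℝ) := by rw [Real.rpow_one]
          _ ≤ _ := Real.rpow_le_rpow_of_exponent_le h0 (by norm_num)
    refine h1.trans ?_
    have e : ∑ j, p j * (CN * (1 + ∑ v ∈ F, MM D sp K₁ (q + (1 : ℝ) • v) (1 / 4) (ψ j))) =
        CN * (∑ j, p j + ∑ j, p j * ∑ v ∈ F, MM D sp K₁ (q + (1 : ℝ) • v) (1 / 4) (ψ j)) := by
      rw [← Finset.sum_add_distrib, Finset.mul_sum]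
      exact Finset.sum_congr rfl fun j _ => by ring
    rw [e, hNE.p1]
    have := mul_le_mul_of_nonneg_left (add_le_add_right (hMM q hq) 1) hCN.le
    linarith
  constructor
  · have h1 : wx D p ψ (nb 0 R) ≤ ∑ q ∈ G, wx D p ψ (nb q 12) := by
      unfold wx
      rw [Finset.sum_comm]
      refine Finset.sum_le_sum fun j _ => ?_
      rw [← Finset.mul_sum]
      refine mul_le_mul_of_nonneg_left ?_ (hp0 j)
      unfold Pool.Agent.Helper780_CP.wm
      rw [Finset.sum_comm]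
      refine Finset.sum_le_sum fun τ _ => ?_
      have i1 : ∀ (q : E3) (r : ℝ), Integrable (fun x : I → E3 => nb q r x * ‖ψ j τ x‖ ^ 2) := by
        intro q r
        have := WI_nbpow D sp ℓ q r 1 zero_le_one (ψ j) (hst' j) τ
        simpa only [Real.rpow_one] using this
      rw [← integral_finsetSum _ fun q _ => i1 q 12]
      refine integral_mono (i1 0 R) (integrable_finsetSum _ fun q _ => i1 q 12) fun x => ?_
      simp only
      rw [← Finset.sum_mul]
      exact mul_le_mul_of_nonneg_right (nb_cover R G hG2 x) (sq_nonneg _)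
    refine h1.trans ((Finset.sum_le_sum fun q hq => hnb q hq).trans ?_)
    rw [Finset.sum_const, nsmul_eq_mul]
    have : 0 ≤ (G.card : ℝ) * B := by positivity
    linarith
  · have h1 : ∑ j, p j * kb D sp 0 R (ψ j) ≤ ∑ q ∈ G, ∑ j, p j * kb D sp q 12 (ψ j) := by
      rw [Finset.sum_comm]
      refine Finset.sum_le_sum fun j _ => ?_
      rw [← Finset.mul_sum]
      exact mul_le_mul_of_nonneg_left (kb_cover D hD sp ℓ (ψ j) (hst' j) R G hG2) (hp0 j)
    refine h1.trans ((Finset.sum_le_sum fun q hq => hkl q hq).trans ?_)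
    rw [Finset.sum_const, nsmul_eq_mul]
    have : 0 ≤ (G.card : ℝ) * (1 + CN * (1 + B)) := by positivity
    linarith

end Run7.h213.Q
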