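import Pool.Agent.Run7.h213.Q.Star

/-! Exponential moments of the local number of particles. -/

set_option autoImplicit false

open MeasureTheory
open scoped Topology

namespace Run7.h213.Q

open Pool.Agent.Helper985.CP (E3 SM Species Wave nrm2 HStable coul ip)
open Pool.Agent.Helper780_CP (nb wx wm cy ct Sy gr SG mulW trW)
open Pool.Agent.Helper780_CP.RL2b (loc_upper_g loc_upper_g_nonneg loc_upper_g_le loc_upper_g_smooth)

variable (c : Cont) {S : Type} [Fintype S] [DecidableEq S] (D : Species S)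

theorem gr_cont {I : Type} [Fintype I] [DecidableEq I] {f : (I → E3) → ℝ} (hf : ContDiff ℝ SM f) :
    Continuous (gr f) := by
  unfold gr
  have h : Continuous (fderiv ℝ f) := hf.continuous_fderiv (by simp [SM])
  refine continuous_finsetSum _ fun i _ => continuous_finsetSum _ fun k _ => ?_
  exact (h.clm_apply continuous_const).pow 2

omit [Fintype S] [DecidableEq S] in
theorem wm_fsum {I : Type} [Fintype I] [DecidableEq I] {Ψ : Wave D I} {ι : Type} (s : Finset ι)
    (a : ι → ℝ) (V : ι → (I → E3) → ℝ)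
    (hV : ∀ m τ, Integrable (fun x => V m x * ‖Ψ τ x‖ ^ 2)) :
    wm D (fun x => ∑ m ∈ s, a m * V m x) Ψ = ∑ m ∈ s, a m * wm D (V m) Ψ := by
  unfold wm
  simp only [Finset.mul_sum]
  rw [Finset.sum_comm]
  refine Finset.sum_congr rfl fun τ _ => ?_
  rw [← Finset.sum_congr rfl fun m _ => integral_const_mul (a m) _]
  rw [← integral_finsetSum _ fun m _ => (hV m τ).const_mul (a m)]
  refine integral_congr_ae (Filter.Eventually.of_forall fun x => ?_)
  simp only [Finset.sum_mul, mul_assoc]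

/-- decay of the level probabilities -/
theorem levels (hD : D.Valid) (hf : ∀ s, D.charge s < 0 → D.fermion s = true)
    (T V ρ : ℝ) (hT : 0 < T) (hV : 0 < V) (hρ : 0 < ρ) (R : ℝ) (hR : 0 < R) :
    ∃ L : ℝ, 1 ≤ L ∧ ∀ {I : Type} [Fintype I] [DecidableEq I] (sp : I → S) (ℓ : ℝ),
      4 * (2 * R + 20) ≤ ℓ →
      ℓ ^ 3 ≤ V * (Fintype.card I : ℝ) → (Fintype.card I : ℝ) ≤ ρ * ℓ ^ 3 →
      (∑ i, D.charge (sp i) = 0) → ∀ η Z : ℝ, 0 ≤ η →
      η ≤ Real.exp (-(Fintype.card I : ℝ)) → ∀ {k : ℕ} (p : Fin k → ℝ)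
      (ψ : Fin k → Wave D I), NEU D sp (fun _ => 0) (c.dom ℓ) T η Z p ψ →
      ∀ m : ℕ, wx D p ψ (fun x => stp R L m x ^ 2) ≤ Real.exp (-(m : ℝ)) := by
  obtain ⟨G, hG, HG⟩ := gr_stp
  obtain ⟨K, C, hK, hC, H⟩ := star c D hD hf T V ρ hT hV hρ R hR
  obtain ⟨Q, hQ⟩ : ∃ Q : ℝ, Q = C * (G / R ^ 2) := ⟨_, rfl⟩
  have hQ0 : 0 < Q := by rw [hQ]; positivity
  refine ⟨1 + K + T + 2 * Q * Real.exp 1 + C, by
    have := Real.exp_pos 1
    have : 0 < 2 * Q * Real.exp 1 := by positivity
    linarith, ?_⟩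
  intro I _ _ sp ℓ hℓ hV1 hcard hneu η Z hη hη1 k p ψ hNE
  obtain ⟨L, hL⟩ : ∃ L : ℝ, L = 1 + K + T + 2 * Q * Real.exp 1 + C := ⟨_, rfl⟩
  rw [← hL]
  have hE := Real.exp_pos 1
  have hQE : 0 < 2 * Q * Real.exp 1 := by positivity
  have hL1 : 1 ≤ L := by rw [hL]; linarith
  have hL0 : 0 < L := by linarith
  have hp0 := hNE.p0
  intro m
  induction m with
  | zero =>
    have h1 : wx D p ψ (fun x => stp R L 0 x ^ 2) ≤ ∑ j, p j * nrm2 D (ψ j) := by
      unfold wx
      refine Finset.sum_le_sum fun j _ => mul_le_mul_of_nonneg_left ?_ (hp0 j)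
      rw [← Pool.Agent.Helper780_CP.wm_one]
      refine wm_mon D (fun τ => wi_cont D sp (hNE.state j) ((stp_smooth R L 0).continuous.pow 2) τ)
        (fun τ => wi_cont D sp (hNE.state j) continuous_const τ) fun x => ?_
      have := stp01 R L 0 x
      exact pow_le_one₀ this.1 this.2
    simp only [hNE.nrm, mul_one, hNE.p1] at h1
    simpa using h1
  | succ m ih =>
    by_contra hcon
    rw [not_le] at hcon
    obtain ⟨w, hw⟩ : ∃ w, w = wx D p ψ (fun x => stp R L (m + 1) x ^ 2) := ⟨_, rfl⟩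
    obtain ⟨v, hv⟩ : ∃ v, v = wx D p ψ (fun x => stp R L m x ^ 2) := ⟨_, rfl⟩
    rw [← hw] at hcon
    rw [← hv] at ih
    have hw0 : 0 < w := (Real.exp_pos _).trans hcon
    -- the number of particles is larger than the level
    have hmN : ((m + 1 : ℕ) : ℝ) ≤ Fintype.card I := by
      by_contra hlt
      rw [not_le] at hlt
      have h0 : ∀ x : I → E3, stp R L (m + 1) x = 0 := by
        intro x
        refine stp_zero R hL0 (m + 1) x ((loc_upper_g_le 0 R x).trans ?_)
        have : (0 : ℝ) ≤ ((m + 1 : ℕ) : ℝ) := Nat.cast_nonneg _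
        nlinarith
      have h1 : w = 0 := by
        rw [hw]
        unfold wx wm
        refine Finset.sum_eq_zero fun j _ => ?_
        simp [h0]
      linarith
    have hη2 : η ≤ w := by
      refine hη1.trans (le_trans ?_ hcon.le)
      exact Real.exp_le_exp.2 (by linarith)
    have h1 := H sp ℓ hℓ hV1 hcard hneu η Z hη p ψ hNE (stp R L (m + 1)) (stp_smooth R L (m + 1))
      (stp_sy sp R L (m + 1)) (fun x => by
        have := stp01 R L (m + 1) x
        rw [abs_of_nonneg this.1]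
        exact this.2)
    rw [← hw] at h1
    have h2 : ((m + 1 : ℕ) : ℝ) * L * w ≤
        wx D p ψ (fun x => stp R L (m + 1) x ^ 2 * loc_upper_g 0 R x) := by
      rw [hw]
      unfold wx
      rw [Finset.mul_sum]
      refine Finset.sum_le_sum fun j _ => ?_
      have e1 : ((m + 1 : ℕ) : ℝ) * L * (p j * wm D (fun x => stp R L (m + 1) x ^ 2) (ψ j)) =
          p j * wm D (fun x => (((m + 1 : ℕ) : ℝ) * L) * stp R L (m + 1) x ^ 2) (ψ j) := by
        rw [Pool.Agent.Helper780_CP.wm_smul]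
        ring
      rw [e1]
      refine mul_le_mul_of_nonneg_left ?_ (hp0 j)
      refine wm_mon D (fun τ => wi_cont D sp (hNE.state j)
        (continuous_const.mul ((stp_smooth R L (m + 1)).continuous.pow 2)) τ)
        (fun τ => wi_cont D sp (hNE.state j)
          (((stp_smooth R L (m + 1)).continuous.pow 2).mul (g_cont R)) τ) fun x => ?_
      by_cases hx : loc_upper_g 0 R x ≤ ((m + 1 : ℕ) : ℝ) * L
      · rw [stp_zero R hL0 (m + 1) x hx]
        simp
      · rw [not_le] at hx
        have := mul_le_mul_of_nonneg_right hx.le (sq_nonneg (stp R L (m + 1) x))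
        linarith
    have h3 : wx D p ψ (gr (stp R L (m + 1))) ≤ G / R ^ 2 * ((m + 2) / L) * v := by
      rw [hv]
      unfold wx
      rw [Finset.mul_sum]
      refine Finset.sum_le_sum fun j _ => ?_
      have e1 : G / R ^ 2 * (((m : ℝ) + 2) / L) * (p j * wm D (fun x => stp R L m x ^ 2) (ψ j)) =
          p j * wm D (fun x => (G / R ^ 2 * (((m : ℝ) + 2) / L)) * stp R L m x ^ 2) (ψ j) := by
        rw [Pool.Agent.Helper780_CP.wm_smul]
        ring
      rw [e1]
      refine mul_le_mul_of_nonneg_left ?_ (hp0 j)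
      exact wm_mon D (fun τ => wi_cont D sp (hNE.state j) (gr_cont (stp_smooth R L (m + 1))) τ)
        (fun τ => wi_cont D sp (hNE.state j)
          (continuous_const.mul ((stp_smooth R L m).continuous.pow 2)) τ)
        fun x => (HG I R L hR hL0 m x).2
    -- logarithm
    have h4 : -(w * Real.log w) ≤ ((m + 1 : ℕ) : ℝ) * w := by
      have h5 : -((m + 1 : ℕ) : ℝ) ≤ Real.log w := by
        rw [← Real.log_exp (-((m + 1 : ℕ) : ℝ))]
        exact Real.log_le_log (Real.exp_pos _) hcon.le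
      nlinarith
    have h6 : v ≤ Real.exp 1 * w := by
      refine ih.trans ?_
      have e : Real.exp (-(m : ℝ)) = Real.exp 1 * Real.exp (-((m + 1 : ℕ) : ℝ)) := by
        rw [← Real.exp_add]
        congr 1
        push_cast
        ring
      rw [e]
      exact mul_le_mul_of_nonneg_left hcon.le hE.le
    obtain ⟨M, hM⟩ : ∃ M : ℝ, M = ((m + 1 : ℕ) : ℝ) := ⟨_, rfl⟩
    have hM1 : 1 ≤ M := by
      rw [hM]
      push_cast
      have : (0 : ℝ) ≤ m := Nat.cast_nonneg m
      linarith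
    have hM2 : (m : ℝ) + 2 = M + 1 := by
      rw [hM]
      push_cast
      ring
    rw [← hM] at h2 h4
    rw [hM2] at h3
    have h7 : G / R ^ 2 * ((M + 1) / L) * v ≤ G / R ^ 2 * (2 * M) * (Real.exp 1 * w) := by
      apply mul_le_mul _ h6
      · rw [hv]
        exact Finset.sum_nonneg fun j _ => mul_nonneg (hp0 j) (wm_nn D fun x => sq_nonneg _)
      · positivity
      · apply mul_le_mul_of_nonneg_left _ (by positivity)
        rw [div_le_iff₀ hL0]
        nlinarith
    have h8 : C * (wx D p ψ (gr (stp R L (m + 1))) + η) ≤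
        2 * Q * Real.exp 1 * M * w + C * w := by
      have h9 : C * (wx D p ψ (gr (stp R L (m + 1))) + η) ≤
          C * (G / R ^ 2 * (2 * M) * (Real.exp 1 * w) + w) :=
        mul_le_mul_of_nonneg_left (by linarith) hC.le
      refine h9.trans (le_of_eq ?_)
      rw [hQ]
      ring
    have h10 : T * -(w * Real.log w) ≤ T * (M * w) := mul_le_mul_of_nonneg_left h4 hT.le
    have h11 : M * L * w ≤ K * w + T * (M * w) + (2 * Q * Real.exp 1 * M * w + C * w) := by
      linarith
    have h12 : M * L * w = M * w + K * (M * w) + T * (M * w) + 2 * Q * Real.exp 1 * M * w +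
        C * (M * w) := by
      rw [hL]; ring
    have h13 : w ≤ M * w := le_mul_of_one_le_left hw0.le hM1
    have h14 : K * w ≤ K * (M * w) := mul_le_mul_of_nonneg_left h13 hK.le
    have h15 : C * w ≤ C * (M * w) := mul_le_mul_of_nonneg_left h13 hC.le
    linarith

/-- exponential moments -/
theorem exp_mom (hD : D.Valid) (hf : ∀ s, D.charge s < 0 → D.fermion s = true)
    (T V ρ : ℝ) (hT : 0 < T) (hV : 0 < V) (hρ : 0 < ρ) (R : ℝ) (hR : 0 < R) :
    ∃ a C : ℝ, 0 < a ∧ 0 < C ∧ ∀ {I : Type} [Fintype I] [DecidableEq I] (sp : I → S) (ℓ : ℝ),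
      4 * (2 * R + 20) ≤ ℓ →
      ℓ ^ 3 ≤ V * (Fintype.card I : ℝ) → (Fintype.card I : ℝ) ≤ ρ * ℓ ^ 3 →
      (∑ i, D.charge (sp i) = 0) → ∀ η Z : ℝ, 0 ≤ η →
      η ≤ Real.exp (-(Fintype.card I : ℝ)) → ∀ {k : ℕ} (p : Fin k → ℝ)
      (ψ : Fin k → Wave D I), NEU D sp (fun _ => 0) (c.dom ℓ) T η Z p ψ →
      wx D p ψ (fun x => Real.exp (a * loc_upper_g 0 R x)) ≤ C := by
  obtain ⟨L, hL1, H⟩ := levels c D hD hf T V ρ hT hV hρ R hR
  have hL0 : 0 < L := by linarith
  obtain ⟨r, hr⟩ : ∃ r : ℝ, r = Real.exp (-(1 / 2)) := ⟨_, rfl⟩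
  have hr0 : 0 < r := by rw [hr]; exact Real.exp_pos _
  have hr1 : r < 1 := by rw [hr, Real.exp_lt_one_iff]; norm_num
  have hE := Real.exp_pos 1
  refine ⟨1 / (2 * L), Real.exp 1 + Real.exp 1 * (1 - r)⁻¹, by positivity, by
    have : 0 < (1 - r)⁻¹ := inv_pos.2 (by linarith)
    positivity, ?_⟩
  intro I _ _ sp ℓ hℓ hV1 hcard hneu η Z hη hη1 k p ψ hNE
  have hlev := H sp ℓ hℓ hV1 hcard hneu η Z hη hη1 p ψ hNE
  have hp0 := hNE.p0
  obtain ⟨N, hN⟩ : ∃ N : ℕ, N = Fintype.card I := ⟨_, rfl⟩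
  have hpt : ∀ x : I → E3, Real.exp (1 / (2 * L) * loc_upper_g 0 R x) ≤
      1 * Real.exp 1 + 1 * ∑ m ∈ Finset.range N, Real.exp (((m : ℝ) + 2) / 2) * stp R L m x ^ 2 := by
    intro x
    have hg0 := loc_upper_g_nonneg 0 R x
    have hgN := loc_upper_g_le 0 R x
    have hS0 : 0 ≤ ∑ m ∈ Finset.range N, Real.exp (((m : ℝ) + 2) / 2) * stp R L m x ^ 2 :=
      Finset.sum_nonneg fun m _ => by positivity
    rw [one_mul, one_mul]
    by_cases hx : loc_upper_g 0 R x < L
    · have h1 : 1 / (2 * L) * loc_upper_g 0 R x ≤ 1 := by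
        rw [div_mul_eq_mul_div, one_mul, div_le_one (by positivity)]
        linarith
      have := Real.exp_le_exp.2 h1
      linarith
    · rw [not_lt] at hx
      have h1 : 1 ≤ loc_upper_g 0 R x / L := by rw [le_div_iff₀ hL0]; linarith
      obtain ⟨q, hq⟩ : ∃ q : ℕ, q = ⌊loc_upper_g 0 R x / L⌋₊ := ⟨_, rfl⟩
      have hq1 : 1 ≤ q := by
        rw [hq, Nat.one_le_floor_iff]
        exact h1
      obtain ⟨m, rfl⟩ : ∃ m, q = m + 1 := ⟨q - 1, by omega⟩
      have h2 : ((m + 1 : ℕ) : ℝ) ≤ loc_upper_g 0 R x / L := by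
        rw [hq]; exact Nat.floor_le (by linarith)
      have h3 : loc_upper_g 0 R x / L < ((m + 1 : ℕ) : ℝ) + 1 := by
        rw [hq]; exact Nat.lt_floor_add_one _
      push_cast at h2 h3
      have h4 : stp R L m x = 1 := by
        apply stp_one R hL0 m x
        rw [le_div_iff₀ hL0] at h2
        exact h2
      have hmN : m < N := by
        have h5 : loc_upper_g 0 R x / L ≤ N := by
          rw [div_le_iff₀ hL0, hN]
          have : (0 : ℝ) ≤ Fintype.card I := Nat.cast_nonneg _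
          nlinarith
        have h6 : (m : ℝ) + 1 ≤ N := h2.trans h5
        have h7 : m + 1 ≤ N := by exact_mod_cast h6
        omega
      have h8 : Real.exp (1 / (2 * L) * loc_upper_g 0 R x) ≤ Real.exp (((m : ℝ) + 2) / 2) := by
        apply Real.exp_le_exp.2
        have e : 1 / (2 * L) * loc_upper_g 0 R x = (loc_upper_g 0 R x / L) / 2 := by
          field_simp
        rw [e]
        linarith
      have h9 := Finset.single_le_sum
        (f := fun m : ℕ => Real.exp (((m : ℝ) + 2) / 2) * stp R L m x ^ 2)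
        (fun m _ => by positivity) (Finset.mem_range.2 hmN)
      simp only [h4, one_pow, mul_one] at h9
      linarith
  have hcS : Continuous fun x : I → E3 =>
      ∑ m ∈ Finset.range N, Real.exp (((m : ℝ) + 2) / 2) * stp R L m x ^ 2 :=
    continuous_finsetSum _ fun m _ => continuous_const.mul ((stp_smooth R L m).continuous.pow 2)
  have h1 : wx D p ψ (fun x => Real.exp (1 / (2 * L) * loc_upper_g 0 R x)) ≤
      ∑ j, p j * (Real.exp 1 + ∑ m ∈ Finset.range N, Real.exp (((m : ℝ) + 2) / 2) *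
        wm D (fun x => stp R L m x ^ 2) (ψ j)) := by
    unfold wx
    refine Finset.sum_le_sum fun j _ => mul_le_mul_of_nonneg_left ?_ (hp0 j)
    have h2 := wm_mon D (Ψ := ψ j) (W := fun x => 1 * Real.exp 1 + 1 *
      ∑ m ∈ Finset.range N, Real.exp (((m : ℝ) + 2) / 2) * stp R L m x ^ 2)
      (fun τ => wi_cont D sp (hNE.state j)
      (Real.continuous_exp.comp (continuous_const.mul (g_cont R))) τ)
      (fun τ => wi_cont D sp (hNE.state j)
        ((continuous_const.mul (continuous_const (y := Real.exp 1))).add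
          (continuous_const.mul hcS)) τ) hpt
    refine h2.trans (le_of_eq ?_)
    rw [wm_lin D (fun τ => wi_cont D sp (hNE.state j) continuous_const τ)
      (fun τ => wi_cont D sp (hNE.state j) hcS τ), one_mul, one_mul]
    congr 1
    · have e : (fun _ : I → E3 => Real.exp 1) = fun _ : I → E3 => Real.exp 1 * 1 := by
        funext x; rw [mul_one]
      rw [e, Pool.Agent.Helper780_CP.wm_smul, Pool.Agent.Helper780_CP.wm_one, hNE.nrm, mul_one]
    · exact wm_fsum D (Finset.range N) (fun m => Real.exp (((m : ℝ) + 2) / 2))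
        (fun m x => stp R L m x ^ 2) fun m τ =>
        wi_cont D sp (hNE.state j) ((stp_smooth R L m).continuous.pow 2) τ
  refine h1.trans ?_
  have e2 : ∑ j, p j * (Real.exp 1 + ∑ m ∈ Finset.range N, Real.exp (((m : ℝ) + 2) / 2) *
        wm D (fun x => stp R L m x ^ 2) (ψ j)) =
      Real.exp 1 + ∑ m ∈ Finset.range N, Real.exp (((m : ℝ) + 2) / 2) *
        wx D p ψ (fun x => stp R L m x ^ 2) := by
    simp only [mul_add, Finset.sum_add_distrib]
    rw [← Finset.sum_mul, hNE.p1, one_mul]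
    congr 1
    unfold wx
    simp only [Finset.mul_sum]
    rw [Finset.sum_comm]
    refine Finset.sum_congr rfl fun m _ => Finset.sum_congr rfl fun j _ => ?_
    ring
  rw [e2]
  refine add_le_add le_rfl ?_
  calc ∑ m ∈ Finset.range N, Real.exp (((m : ℝ) + 2) / 2) * wx D p ψ (fun x => stp R L m x ^ 2)
      ≤ ∑ m ∈ Finset.range N, Real.exp 1 * r ^ m := by
        refine Finset.sum_le_sum fun m _ => ?_
        refine (mul_le_mul_of_nonneg_left (hlev m) (Real.exp_pos _).le).trans (le_of_eq ?_)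
        rw [hr, ← Real.exp_nat_mul, ← Real.exp_add, ← Real.exp_add]
        congr 1
        ring
    _ = Real.exp 1 * ∑ m ∈ Finset.range N, r ^ m := by rw [Finset.mul_sum]
    _ ≤ Real.exp 1 * (1 - r)⁻¹ := by
        refine mul_le_mul_of_nonneg_left ?_ hE.le
        rw [← tsum_geometric_of_lt_one hr0.le hr1]
        exact (summable_geometric_of_lt_one hr0.le hr1).sum_le_tsum _ fun m _ => by positivity

end Run7.h213.Q
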