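import Pool.Agent.Run7.h213.Q.Env2
import Pool.Agent.Helper985.CT.M_center_upper

set_option autoImplicit false

open MeasureTheory
open scoped Topology

namespace Run7.h213.Q

open Pool.Agent.Helper985.CP (E3 SM Species Wave nrm2 HStable coul ip)
open Pool.Agent.Helper780_CP (nb wx wm cy Sy gr SG mulW trW)
open Run7.h213.P Run7.h213.P.K

theorem tr_ip {S : Type} (D : Species S) {I : Type} [Fintype I] [DecidableEq I] (v : E3)
    (Φ Ψ : Wave D I) : ip D (trW D v Φ) (trW D v Ψ) = ip D Φ Ψ := by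
  unfold ip
  exact Finset.sum_congr rfl fun τ _ => integral_sub_right_eq_self
    (μ := (volume : Measure (I → E3))) (fun x => (starRingEnd ℂ) (Φ τ x) * Ψ τ x) (fun _ : I => v)

section

variable [Env]

variable {S : Type} [Fintype S] [DecidableEq S] (D : Species S)
  {I : Type} [Fintype I] [DecidableEq I] (sp : I → S)

theorem peierls_bddP (hD : D.Valid) (hst : HStable D) (ℓ T : ℝ) (hℓ : 0 < ℓ) (hT : 0 < T) :
    BddAbove (peierls D sp ℓ T) := by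
  have hAl : 0 < Env.A * ℓ := mul_pos (lt_of_lt_of_le one_pos Env.A_ge) hℓ
  obtain ⟨B, hB⟩ := Pool.Agent.Helper985.CP.peierls_bdd D hD hst sp (Env.A * ℓ) T hAl hT
  refine ⟨B, ?_⟩
  rintro z ⟨k, ψ, ⟨h1, h2⟩, rfl⟩
  have hmem : (∑ j, Real.exp (-(Pool.Agent.Helper985.CP.energy D sp (trW D (hv ℓ) (ψ j))) / T)) ∈
      Pool.Agent.Helper985.CP.peierls D sp (Env.A * ℓ) T := by
    refine ⟨k, fun j => trW D (hv ℓ) (ψ j), ⟨fun j => br_state D sp ℓ (ψ j) (h1 j), ?_⟩, rfl⟩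
    intro i j
    rw [tr_ip]
    exact h2 i j
  refine le_trans ?_ (hB hmem)
  refine Finset.sum_le_sum fun j _ => Real.exp_le_exp.2 ?_
  have e : Pool.Agent.Helper985.CP.energy D sp (trW D (hv ℓ) (ψ j)) = energy0 D sp (ψ j) :=
    tr_energy D sp (hv ℓ) (ψ j)
  rw [e]
  have h3 := energy_ge D sp ℓ (ψ j) (h1 j)
  exact div_le_div_of_nonneg_right (by linarith) hT.le

omit [Env] [Fintype S] [DecidableEq S] in
theorem ip_self_nrm (Ψ : Wave D I) : ip D Ψ Ψ = ((nrm2 D Ψ : ℝ) : ℂ) :=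
  (Pool.Agent.Helper985.CP.cu_nrm2_ip D Ψ).symm

/-- near-minimizers exist -/
theorem exists_NEP (hD : D.Valid) (hst : HStable D) (ℓ T η : ℝ) (hℓ : 0 < ℓ) (hT : 0 < T)
    (hη : 0 < η) (Ψ0 : Wave D I) (hΨ0 : IsState D sp ℓ Ψ0) (hn0 : nrm2 D Ψ0 = 1) :
    ∃ (Z : ℝ) (k : ℕ) (p : Fin k → ℝ) (ψ : Fin k → Wave D I), NE D sp ℓ T η Z p ψ := by
  have hb := peierls_bddP D sp hD hst ℓ T hℓ hT
  have hmem0 : Real.exp (-(energy D sp Ψ0) / T) ∈ peierls D sp ℓ T := by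
    refine ⟨1, fun _ => Ψ0, ⟨fun _ => hΨ0, ?_⟩, by simp⟩
    intro i j
    rw [if_pos (Subsingleton.elim i j), ip_self_nrm, hn0]
    simp
  have hne : (peierls D sp ℓ T).Nonempty := ⟨_, hmem0⟩
  obtain ⟨Z, hZ⟩ : ∃ Z, Z = sSup (peierls D sp ℓ T) := ⟨_, rfl⟩
  have hZ0 : 0 < Z := by
    rw [hZ]
    exact lt_of_lt_of_le (Real.exp_pos _) (le_csSup hb hmem0)
  have hlt : Z * Real.exp (-η / T) < sSup (peierls D sp ℓ T) := by
    rw [← hZ]
    have h1 : Real.exp (-η / T) < 1 := by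
      rw [Real.exp_lt_one_iff]
      exact div_neg_of_neg_of_pos (by linarith) hT
    nlinarith
  obtain ⟨z, ⟨k, ψ, hψ, rfl⟩, hz⟩ := exists_lt_of_lt_csSup hne hlt
  obtain ⟨W, hW⟩ : ∃ W, W = ∑ j, Real.exp (-(energy D sp (ψ j)) / T) := ⟨_, rfl⟩
  rw [← hW] at hz
  have hW0 : 0 < W := lt_of_le_of_lt (by positivity) hz
  have hnrm : ∀ j, nrm2 D (ψ j) = 1 := by
    intro j
    have h1 := hψ.2 j j
    rw [if_pos rfl, ip_self_nrm] at h1
    exact_mod_cast h1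
  have hstate : ∀ j, Pool.Agent.Helper985.CP.IsState D sp (Env.A * ℓ) (trW D (hv ℓ) (ψ j)) :=
    fun j => br_state D sp ℓ (ψ j) (hψ.1 j)
  refine ⟨Z, k, fun j => Real.exp (-(energy D sp (ψ j)) / T) / W, ψ, hψ.1, ?_, hnrm, ?_, ?_, hZ0, ?_,
    ?_⟩
  · intro γ
    have h1 := Pool.Agent.Helper985.CP.cu_comb D sp (Env.A * ℓ) (fun j => trW D (hv ℓ) (ψ j))
      ⟨hstate, fun i j => by rw [tr_ip]; exact hψ.2 i j⟩ γ
    have h2 : nrm2 D (fun τ x => ∑ a, γ a * trW D (hv ℓ) (ψ a) τ x) =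
        nrm2 D (fun τ x => ∑ a, γ a * ψ a τ x) :=
      tr_nrm2 D (hv ℓ) (fun τ x => ∑ a, γ a * ψ a τ x)
    rw [← h2]
    exact h1.le
  · intro j
    positivity
  · rw [← Finset.sum_div, ← hW]
    field_simp
  · intro z hz
    rw [hZ]
    exact le_csSup hb hz
  · have e1 : ∀ j, Real.exp (-(energy D sp (ψ j)) / T) / W * energy D sp (ψ j) +
        T * (Real.exp (-(energy D sp (ψ j)) / T) / W *
          Real.log (Real.exp (-(energy D sp (ψ j)) / T) / W)) =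
        (Real.exp (-(energy D sp (ψ j)) / T) / W) * (-T * Real.log W) := by
      intro j
      rw [Real.log_div (Real.exp_pos _).ne' hW0.ne', Real.log_exp]
      field_simp
      ring
    simp only [e1]
    rw [← Finset.sum_mul, ← Finset.sum_div, ← hW, div_self hW0.ne', one_mul]
    have h1 : Real.log Z - η / T ≤ Real.log W := by
      have h2 : Real.log (Z * Real.exp (-η / T)) ≤ Real.log W :=
        Real.log_le_log (by positivity) hz.le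
      rw [Real.log_mul hZ0.ne' (Real.exp_pos _).ne', Real.log_exp] at h2
      have : -η / T = -(η / T) := by ring
      linarith
    have h2 := mul_le_mul_of_nonneg_left h1 hT.le
    have h3 : T * (Real.log Z - η / T) = T * Real.log Z - η := by field_simp
    linarith

end

section

variable (c : Cont) {U : E3 → ℝ} (h : OkU U)

variable {S : Type} [Fintype S] [DecidableEq S] (D : Species S)

include h

theorem exists_NEU (hD : D.Valid) (hst : HStable D) {I : Type} [Fintype I] [DecidableEq I]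
    (sp : I → S) (ℓ T η : ℝ) (hℓ : 0 < ℓ) (hT : 0 < T)
    (hη : 0 < η) (Ψ0 : Wave D I) (hΨ0 : StIn D sp (c.dom ℓ) Ψ0) (hn0 : nrm2 D Ψ0 = 1) :
    ∃ (Z : ℝ) (k : ℕ) (p : Fin k → ℝ) (ψ : Fin k → Wave D I),
      NEU D sp U (c.dom ℓ) T η Z p ψ := by
  obtain ⟨Z, k, p, ψ, h1⟩ := @exists_NEP (c.env h) S _ _ D I _ _ sp hD hst ℓ T η hℓ hT hη Ψ0
    ((st_iff c h D sp ℓ Ψ0).2 hΨ0) hn0
  exact ⟨Z, k, p, ψ, (ne_iff c h D sp ℓ T η Z p ψ).1 h1⟩

theorem st_mul {I : Type} [Fintype I] [DecidableEq I] (sp : I → S) (ℓ : ℝ) (Ψ : Wave D I)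
    (hΨ : StIn D sp (c.dom ℓ) Ψ) (f : (I → E3) → ℝ) (hf : ContDiff ℝ SM f) (hs : Sy sp f) :
    StIn D sp (c.dom ℓ) (mulW D f Ψ) :=
  (st_iff c h D sp ℓ _).1 (@RL0.mulW_stateS (c.env h) S D I _ _ sp ℓ Ψ
    ((st_iff c h D sp ℓ Ψ).2 hΨ) f hf hs)

/-- localisation of near-minimizers -/
theorem near_min_n (hD : D.Valid) :
    ∃ C : ℝ, 0 < C ∧ ∀ {I : Type} [Fintype I] [DecidableEq I] (sp : I → S) (ℓ T η Z : ℝ),
      0 < T → 0 ≤ η → ∀ {k : ℕ} (p : Fin k → ℝ) (ψ : Fin k → Wave D I),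
      NEU D sp U (c.dom ℓ) T η Z p ψ →
      ∀ (f : (I → E3) → ℝ) (B : ℝ), ContDiff ℝ SM f → Sy sp f → (∀ x, |f x| ≤ B) →
        ∑ j, p j * enU D sp U (mulW D f (ψ j)) +
          T * ∑ j, p j * (nrm2 D (mulW D f (ψ j)) * Real.log (p j)) ≤
        -T * Real.log Z * wx D p ψ (fun x => f x ^ 2) + C * (wx D p ψ (gr f) + B ^ 2 * η) +
          T * wx D p ψ (fun x => f x ^ 2) := by
  obtain ⟨C, hC, H⟩ := @RG1.near_minT (c.env h) S _ _ D hD
  refine ⟨C, hC, ?_⟩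
  intro I _ _ sp ℓ T η Z hT hη k p ψ hNE f B hf hs hB
  have h1 := H sp ℓ T η Z hT hη p ψ ((ne_iff c h D sp ℓ T η Z p ψ).2 hNE) f B hf hs hB
  have e : ∀ j, @energy (c.env h) S D I _ _ sp (mulW D f (ψ j)) =
      enU D sp U (mulW D f (ψ j)) := fun j =>
    en_eq c h D sp ℓ _ (st_mul c h D sp ℓ _ (hNE.state j) f hf hs)
  simp only [e] at h1
  exact h1

theorem var_ge_n {I : Type} [Fintype I] [DecidableEq I] (sp : I → S)
    (ℓ T : ℝ) (hT : 0 < T) (Z : ℝ) (hZ0 : 0 < Z) (hZ : ∀ z ∈ peU D sp U (c.dom ℓ) T, z ≤ Z)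
    {k : ℕ} (p : Fin k → ℝ) (hp : ∀ j, 0 ≤ p j) (Φ : Fin k → Wave D I)
    (hΦ : ∀ j, StIn D sp (c.dom ℓ) (Φ j)) (hsg : SG D Φ) :
    T * ((∑ j, p j * nrm2 D (Φ j)) * Real.log (∑ j, p j * nrm2 D (Φ j))) -
      T * ((∑ j, p j * nrm2 D (Φ j)) * Real.log Z) -
      T * ∑ j, p j * (nrm2 D (Φ j) * Real.log (p j)) ≤ ∑ j, p j * enU D sp U (Φ j) := by
  have h1 := @var_ge (c.env h) S D I _ _ sp ℓ T hT Z hZ0 (by rw [pe_eq c h D sp]; exact hZ) k p hp Φ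
    (fun j => (st_iff c h D sp ℓ _).2 (hΦ j)) hsg
  have e : ∀ j, @energy (c.env h) S D I _ _ sp (Φ j) = enU D sp U (Φ j) := fun j =>
    en_eq c h D sp ℓ _ (hΦ j)
  simp only [e] at h1
  exact h1

theorem local_n (hD : D.Valid) (hf : ∀ s, D.charge s < 0 → D.fermion s = true)
    (T V ρ : ℝ) (hT : 0 < T) (hV : 0 < V) (hρ : 0 < ρ) (R : ℝ) (hR : 0 < R) :
    ∃ C : ℝ, 0 < C ∧ ∀ {I : Type} [Fintype I] [DecidableEq I] (sp : I → S) (ℓ : ℝ),
      4 * (R + 20) ≤ ℓ →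
      ℓ ^ 3 ≤ V * (Fintype.card I : ℝ) → (Fintype.card I : ℝ) ≤ ρ * ℓ ^ 3 →
      (∑ i, D.charge (sp i) = 0) → ∀ η Z : ℝ, 0 ≤ η →
      η * (1 + (Fintype.card I : ℝ)) ^ 2 ≤ 1 → ∀ {k : ℕ} (p : Fin k → ℝ)
      (ψ : Fin k → Wave D I), NEU D sp U (c.dom ℓ) T η Z p ψ →
      wx D p ψ (nb 0 R) ≤ C ∧ ∑ j, p j * ∑ τ, ∫ x, (∑ i, if ‖x i - 0‖ < R then
        Pool.Agent.Helper985.CP.kin D sp i (ψ j τ) x else 0) ≤ C := by
  obtain ⟨C, hC, H⟩ := @local_bds (c.env h) S _ _ D hD hf T V ρ hT hV hρ R hR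
  refine ⟨C, hC, ?_⟩
  intro I _ _ sp ℓ hℓ h1 h2 h3 η Z hη hη1 k p ψ hNE
  have hNE' := (ne_iff c h D sp ℓ T η Z p ψ).2 hNE
  obtain ⟨a1, a2⟩ := H sp ℓ hℓ h1 h2 h3 η Z hη hη1 p ψ hNE'
  refine ⟨a1, le_trans ?_ a2⟩
  refine Finset.sum_le_sum fun j _ => mul_le_mul_of_nonneg_left ?_ (hNE.p0 j)
  letI : Env := c.env h
  have hst := hNE'.state j
  show _ ≤ kb D sp 0 R (ψ j)
  unfold kb
  refine Finset.sum_le_sum fun τ _ => ?_
  have i1 : ∀ i, Integrable (fun x : I → E3 => if ‖x i - 0‖ < R then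
      Pool.Agent.Helper985.CP.kin D sp i (ψ j τ) x else 0) := by
    intro i
    have h1 := int_kin0 D sp ℓ (ψ j) hst τ i
    have hm : MeasurableSet {x : I → E3 | ‖x i - 0‖ < R} := by
      refine measurableSet_lt ?_ measurable_const
      fun_prop
    refine (h1.indicator hm).congr (Filter.Eventually.of_forall fun x => ?_)
    simp only [Set.indicator_apply, Set.mem_ofPred_eq]
  refine integral_mono (integrable_finsetSum _ fun i _ => i1 i)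
    (integrable_finsetSum _ fun i _ => kb_int D sp ℓ (ψ j) hst 0 R τ i) fun x => ?_
  refine Finset.sum_le_sum fun i _ => ?_
  split_ifs
  · exact kin_ge D sp i (ψ j τ) x
  · exact le_rfl

end

end Run7.h213.Q
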