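import Pool.Agent.Run7.h213.Q.Step

/-! Comparison of the systems with and without the potential. -/

set_option autoImplicit false

open MeasureTheory
open scoped Topology

namespace Run7.h213.Q

open Pool.Agent.Helper985.CP (E3 SM Species Wave nrm2 HStable coul ip)
open Pool.Agent.Helper780_CP (nb wx wm cy ct Sy gr SG mulW trW)
open Pool.Agent.Helper780_CP.RL2b (loc_upper_g loc_upper_g_nonneg loc_upper_g_le loc_upper_g_smooth)

section

variable {S : Type} (D : Species S) {I : Type} [Fintype I] [DecidableEq I] (sp : I → S)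

theorem wi_cont {Ω : Set E3} {Ψ : Wave D I} (hΨ : StIn D sp Ω Ψ) {W : (I → E3) → ℝ}
    (hW : Continuous W) (τ : I → Fin D.g) : Integrable (fun x => W x * ‖Ψ τ x‖ ^ 2) := by
  have hsq : Continuous (fun x => ‖Ψ τ x‖ ^ 2) := ((hΨ.smooth τ).continuous.norm).pow 2
  have hsqc : HasCompactSupport (fun x => ‖Ψ τ x‖ ^ 2) :=
    (hΨ.compact τ).comp_left (g := fun z : ℂ => ‖z‖ ^ 2) (by simp)
  exact (hW.mul hsq).integrable_of_hasCompactSupport hsqc.mul_left

theorem wi_bdd {Ω : Set E3} {Ψ : Wave D I} (hΨ : StIn D sp Ω Ψ) {W : (I → E3) → ℝ}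
    (hW : Measurable W) (B : ℝ) (hB : ∀ x, |W x| ≤ B) (τ : I → Fin D.g) :
    Integrable (fun x => W x * ‖Ψ τ x‖ ^ 2) := by
  have h1 := wi_cont D sp hΨ (W := fun _ => 1) continuous_const τ
  simp only [one_mul] at h1
  exact h1.bdd_mul hW.aestronglyMeasurable (Filter.Eventually.of_forall fun x => by
    rw [Real.norm_eq_abs]; exact hB x)

theorem wm_lin {Ψ : Wave D I} {V W : (I → E3) → ℝ}
    (hV : ∀ τ, Integrable (fun x => V x * ‖Ψ τ x‖ ^ 2))
    (hW : ∀ τ, Integrable (fun x => W x * ‖Ψ τ x‖ ^ 2)) (a b : ℝ) :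
    wm D (fun x => a * V x + b * W x) Ψ = a * wm D V Ψ + b * wm D W Ψ := by
  unfold wm
  rw [Finset.mul_sum, Finset.mul_sum, ← Finset.sum_add_distrib]
  refine Finset.sum_congr rfl fun τ _ => ?_
  rw [← integral_const_mul, ← integral_const_mul,
    ← integral_add ((hV τ).const_mul a) ((hW τ).const_mul b)]
  refine integral_congr_ae (Filter.Eventually.of_forall fun x => ?_)
  simp only
  ring

theorem wm_mon {Ψ : Wave D I} {V W : (I → E3) → ℝ}
    (hV : ∀ τ, Integrable (fun x => V x * ‖Ψ τ x‖ ^ 2))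
    (hW : ∀ τ, Integrable (fun x => W x * ‖Ψ τ x‖ ^ 2)) (h : ∀ x, V x ≤ W x) :
    wm D V Ψ ≤ wm D W Ψ := by
  unfold wm
  refine Finset.sum_le_sum fun τ _ => ?_
  exact integral_mono (hV τ) (hW τ) fun x => mul_le_mul_of_nonneg_right (h x) (sq_nonneg _)

theorem wm_nn {Ψ : Wave D I} {V : (I → E3) → ℝ} (h : ∀ x, 0 ≤ V x) : 0 ≤ wm D V Ψ := by
  unfold wm
  exact Finset.sum_nonneg fun τ _ => integral_nonneg fun x => mul_nonneg (h x) (sq_nonneg _)

omit [DecidableEq I] in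
theorem g_cont (R : ℝ) : Continuous (loc_upper_g (I := I) 0 R) :=
  (loc_upper_g_smooth 0 R).continuous

omit [DecidableEq I] in
theorem g_abs (R : ℝ) (x : I → E3) : |loc_upper_g 0 R x| ≤ Fintype.card I := by
  rw [abs_of_nonneg (loc_upper_g_nonneg 0 R x)]
  exact loc_upper_g_le 0 R x

/-- energies with and without potential -/
theorem enU1_eq {Ω : Set E3} {Ψ : Wave D I} (hΨ : StIn D sp Ω Ψ) (R : ℝ) :
    enU D sp (fun z => 1 - cy 0 R z ^ 2) Ψ = enU D sp (fun _ => 0) Ψ +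
      (Fintype.card I : ℝ) * nrm2 D Ψ - wm D (loc_upper_g 0 R) Ψ := by
  unfold enU
  have e1 : (fun x : I → E3 => ∑ i, (1 - cy 0 R (x i) ^ 2)) =
      fun x => (Fintype.card I : ℝ) * 1 + (-1) * loc_upper_g 0 R x := by
    funext x
    rw [Finset.sum_sub_distrib]
    unfold loc_upper_g
    simp
    ring
  have e2 : wm D (fun _ : I → E3 => ∑ _i : I, (0 : ℝ)) Ψ = 0 := by
    unfold wm
    simp
  rw [e1, e2, wm_lin D (fun τ => wi_cont D sp hΨ continuous_const τ)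
    (fun τ => wi_cont D sp hΨ (g_cont R) τ), Pool.Agent.Helper780_CP.wm_one]
  ring

omit [Fintype I] [DecidableEq I] in
theorem mulW_norm' (f : (I → E3) → ℝ) (Ψ : Wave D I) (τ : I → Fin D.g) (x : I → E3) :
    ‖mulW D f Ψ τ x‖ ^ 2 = f x ^ 2 * ‖Ψ τ x‖ ^ 2 := by
  unfold mulW
  rw [norm_mul, mul_pow, Complex.norm_real, Real.norm_eq_abs, sq_abs]

end

section

variable (c : Cont) {S : Type} [Fintype S] [DecidableEq S] (D : Species S)

theorem sg_mul {U : E3 → ℝ} (h : OkU U) {I : Type} [Fintype I] [DecidableEq I] (sp : I → S) (ℓ : ℝ)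
    {k : ℕ} (ψ : Fin k → Wave D I) (hψ : ∀ j, StIn D sp (c.dom ℓ) (ψ j)) (hsg : SG D ψ)
    (f : (I → E3) → ℝ) (hf : Continuous f) (h1 : ∀ x, |f x| ≤ 1) :
    SG D (fun j => mulW D f (ψ j)) := by
  intro γ
  rw [Pool.Agent.Helper780_CP.mulW_sum]
  refine le_trans ?_ (hsg γ)
  refine @Run7.h213.P.K.mulW_nrm_le (c.env h) S D I _ _ sp ℓ _
    (@Run7.h213.P.state_comb (c.env h) S D I _ _ sp ℓ _ _ ψ
      (fun j => (st_iff c h D sp ℓ _).2 (hψ j)) γ) f hf fun x => ?_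
  rw [← sq_abs]
  exact pow_le_one₀ (abs_nonneg _) (h1 x)

/-- the main inequality -/
theorem star (hD : D.Valid) (hf : ∀ s, D.charge s < 0 → D.fermion s = true)
    (T V ρ : ℝ) (hT : 0 < T) (hV : 0 < V) (hρ : 0 < ρ) (R : ℝ) (hR : 0 < R) :
    ∃ K C : ℝ, 0 < K ∧ 0 < C ∧ ∀ {I : Type} [Fintype I] [DecidableEq I] (sp : I → S) (ℓ : ℝ),
      4 * (2 * R + 20) ≤ ℓ →
      ℓ ^ 3 ≤ V * (Fintype.card I : ℝ) → (Fintype.card I : ℝ) ≤ ρ * ℓ ^ 3 →
      (∑ i, D.charge (sp i) = 0) → ∀ η Z : ℝ, 0 ≤ η → ∀ {k : ℕ} (p : Fin k → ℝ)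
      (ψ : Fin k → Wave D I), NEU D sp (fun _ => 0) (c.dom ℓ) T η Z p ψ →
      ∀ f : (I → E3) → ℝ, ContDiff ℝ SM f → Sy sp f → (∀ x, |f x| ≤ 1) →
      wx D p ψ (fun x => f x ^ 2 * loc_upper_g 0 R x) ≤ K * wx D p ψ (fun x => f x ^ 2) -
        T * (wx D p ψ (fun x => f x ^ 2) * Real.log (wx D p ψ (fun x => f x ^ 2))) +
        C * (wx D p ψ (gr f) + η) := by
  have hst := Pool.Agent.Helper780_CP.hstable D hD hf
  obtain ⟨C1, hC1, H1⟩ := local_n c (okU1 R) D hD hf T V ρ hT hV hρ (2 * R) (by positivity)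
  obtain ⟨C0, hC0, H0⟩ := near_min_n c okU0 D hD
  refine ⟨C1 + 1 + T, C0, by positivity, hC0, ?_⟩
  intro I _ _ sp ℓ hℓ hV1 hcard hneu η Z hη k p ψ hNE f hfs hfy hfb
  have hℓ0 : 0 < ℓ := by linarith
  have hN0 : (0 : ℝ) ≤ Fintype.card I := Nat.cast_nonneg _
  -- a near-minimizer of the system with potential
  obtain ⟨j0⟩ : Nonempty (Fin k) := by
    by_contra hne
    rw [not_nonempty_iff] at hne
    have := hNE.p1
    simp at this
  obtain ⟨η', hη'⟩ : ∃ η' : ℝ, η' = 1 / (1 + (Fintype.card I : ℝ)) ^ 2 := ⟨_, rfl⟩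
  have hη'0 : 0 < η' := by rw [hη']; positivity
  have hη'1 : η' ≤ 1 := by
    rw [hη', div_le_one (by positivity)]
    nlinarith
  obtain ⟨Z1, k1, p1, ψ1, hNE1⟩ := exists_NEU c (okU1 R) D hD hst sp ℓ T η' hℓ0 hT hη'0 (ψ j0)
    (hNE.state j0) (hNE.nrm j0)
  have hloc := (H1 sp ℓ hℓ hV1 hcard hneu η' Z1 hη'0.le (by
    rw [hη']; field_simp; exact le_rfl) p1 ψ1 hNE1).1
  have hg1 : wx D p1 ψ1 (loc_upper_g 0 R) ≤ C1 := by
    refine le_trans ?_ hloc
    unfold wx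
    refine Finset.sum_le_sum fun j _ => mul_le_mul_of_nonneg_left ?_ (hNE1.p0 j)
    refine wm_mon D (fun τ => wi_cont D sp (hNE1.state j) (g_cont R) τ) (fun τ => ?_) fun x => ?_
    · refine wi_bdd D sp (hNE1.state j) ?_ (Fintype.card I) (fun x => ?_) τ
      · unfold nb
        refine Finset.measurable_sum _ fun i _ => ?_
        refine Measurable.ite ?_ measurable_const measurable_const
        exact measurableSet_le (by fun_prop) measurable_const
      · unfold nb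
        rw [abs_of_nonneg (Finset.sum_nonneg fun i _ => by split_ifs <;> norm_num)]
        calc (∑ i : I, if ‖x i - 0‖ ≤ 2 * R then (1 : ℝ) else 0) ≤ ∑ _i : I, (1 : ℝ) :=
              Finset.sum_le_sum fun i _ => by split_ifs <;> norm_num
          _ = _ := by simp
    · unfold nb loc_upper_g
      refine Finset.sum_le_sum fun i _ => ?_
      split_ifs with h
      · exact Pool.Agent.Helper780_CP.RH1.cy_le 0 R (x i)
      · rw [Pool.Agent.Helper780_CP.RH1.cy_zero 0 hR (x i) (not_le.1 h)]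
        norm_num
  -- comparison of the partition functions
  have hcmp : T * Real.log Z1 ≤ T * Real.log Z - (Fintype.card I : ℝ) + C1 + 1 := by
    have h1 := hNE1.free
    have h2 := var_ge_n c okU0 D sp ℓ T hT Z hNE.Zpos hNE.Zle p1 hNE1.p0 ψ1 hNE1.state hNE1.sg
    simp only [hNE1.nrm, mul_one, one_mul, hNE1.p1, Real.log_one, mul_zero] at h2
    have e1 : ∑ j, (p1 j * enU D sp (fun z => 1 - cy 0 R z ^ 2) (ψ1 j) +
        T * (p1 j * Real.log (p1 j))) = ∑ j, p1 j * enU D sp (fun _ => 0) (ψ1 j) +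
        (Fintype.card I : ℝ) - wx D p1 ψ1 (loc_upper_g 0 R) +
        T * ∑ j, p1 j * Real.log (p1 j) := by
      have e2 : (Fintype.card I : ℝ) = ∑ j, p1 j * (Fintype.card I : ℝ) := by
        rw [← Finset.sum_mul, hNE1.p1, one_mul]
      unfold wx
      rw [e2, ← Finset.sum_add_distrib, ← Finset.sum_sub_distrib, Finset.mul_sum,
        ← Finset.sum_add_distrib]
      refine Finset.sum_congr rfl fun j _ => ?_
      rw [enU1_eq D sp (hNE1.state j), hNE1.nrm]
      ring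
    rw [e1] at h1
    linarith
  -- trial state
  have hfst : ∀ j, StIn D sp (c.dom ℓ) (mulW D f (ψ j)) := fun j =>
    st_mul c okU0 D sp ℓ (ψ j) (hNE.state j) f hfs hfy
  have h3 := var_ge_n c (okU1 R) D sp ℓ T hT Z1 hNE1.Zpos hNE1.Zle p hNE.p0
    (fun j => mulW D f (ψ j)) hfst
    (sg_mul c D okU0 sp ℓ ψ hNE.state hNE.sg f hfs.continuous hfb)
  have h4 := H0 sp ℓ T η Z hT hη p ψ hNE f 1 hfs hfy hfb
  have hw : wx D p ψ (fun x => f x ^ 2) = ∑ j, p j * nrm2 D (mulW D f (ψ j)) := by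
    unfold wx
    refine Finset.sum_congr rfl fun j _ => ?_
    rw [Pool.Agent.Helper780_CP.RG1.nrm2_wm]
  rw [← hw] at h3
  have e3 : ∑ j, p j * enU D sp (fun z => 1 - cy 0 R z ^ 2) (mulW D f (ψ j)) =
      ∑ j, p j * enU D sp (fun _ => 0) (mulW D f (ψ j)) +
      (Fintype.card I : ℝ) * wx D p ψ (fun x => f x ^ 2) -
      wx D p ψ (fun x => f x ^ 2 * loc_upper_g 0 R x) := by
    rw [hw]
    unfold wx
    rw [Finset.mul_sum, ← Finset.sum_add_distrib, ← Finset.sum_sub_distrib]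
    refine Finset.sum_congr rfl fun j _ => ?_
    rw [enU1_eq D sp (hfst j), Pool.Agent.Helper780_CP.wm_mulW]
    ring
  rw [e3] at h3
  obtain ⟨w, hwe⟩ : ∃ w, w = wx D p ψ (fun x => f x ^ 2) := ⟨_, rfl⟩
  rw [← hwe] at h3 h4 ⊢
  have hw0 : 0 ≤ w := by
    rw [hwe]
    exact Finset.sum_nonneg fun j _ => mul_nonneg (hNE.p0 j) (wm_nn D fun x => sq_nonneg _)
  have h5 := mul_le_mul_of_nonneg_right hcmp hw0
  rw [one_pow, one_mul] at h4
  have e4 : T * (w * Real.log Z1) = T * Real.log Z1 * w := by ring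
  have e5 : (T * Real.log Z - (Fintype.card I : ℝ) + C1 + 1) * w =
    T * Real.log Z * w - (Fintype.card I : ℝ) * w + C1 * w + w := by ring
  have e6 : (C1 + 1 + T) * w = C1 * w + w + T * w := by ring
  have e7 : -T * Real.log Z * w = -(T * Real.log Z * w) := by ring
  rw [e5] at h5
  rw [e4] at h3
  rw [e7] at h4
  rw [e6]
  linarith

end

end Run7.h213.Q
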