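import Pool.Agent.Run7.h213.Q.Nmin

/-! Level functions of the smoothed local number. -/

set_option autoImplicit false

open MeasureTheory
open scoped Topology

namespace Run7.h213.Q

open Pool.Agent.Helper985.CP (E3 SM Species Wave nrm2 HStable coul ip)
open Pool.Agent.Helper780_CP (nb wx wm cy ct Sy gr SG mulW trW)
open Pool.Agent.Helper780_CP.RL2b (loc_upper_g loc_upper_g_nonneg loc_upper_g_le loc_upper_g_smooth)

/-- derivative of the smooth step -/
theorem sT_bd : ∃ K : ℝ, 0 < K ∧ ∀ t, |deriv Real.smoothTransition t| ≤ K := by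
  have hc : Continuous (deriv Real.smoothTransition) := by
    have h : ContDiff ℝ 1 Real.smoothTransition := Real.smoothTransition.contDiff
    exact h.continuous_deriv le_rfl
  obtain ⟨B, hB⟩ := (isCompact_Icc (a := (-1 : ℝ)) (b := 2)).exists_bound_of_continuousOn
    hc.continuousOn
  refine ⟨|B| + 1, by positivity, fun t => ?_⟩
  by_cases ht : t ∈ Set.Icc (-1 : ℝ) 2
  · have := hB t ht
    rw [Real.norm_eq_abs] at this
    have := le_abs_self B
    linarith
  · have h0 : deriv Real.smoothTransition t = 0 := by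
      rw [Set.mem_Icc, not_and_or, not_le, not_le] at ht
      rcases ht with ht | ht
      · have : Real.smoothTransition =ᶠ[𝓝 t] fun _ => 0 := by
          filter_upwards [eventually_lt_nhds ht] with s hs
          exact Real.smoothTransition.zero_of_nonpos (by linarith)
        rw [this.deriv_eq, deriv_const]
      · have : Real.smoothTransition =ᶠ[𝓝 t] fun _ => 1 := by
          filter_upwards [eventually_gt_nhds ht] with s hs
          exact Real.smoothTransition.one_of_one_le (by linarith)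
        rw [this.deriv_eq, deriv_const]
    rw [h0, abs_zero]
    positivity

theorem sT_d0 (t : ℝ) (ht : t < 0 ∨ 1 < t) : deriv Real.smoothTransition t = 0 := by
  rcases ht with ht | ht
  · have : Real.smoothTransition =ᶠ[𝓝 t] fun _ => 0 := by
      filter_upwards [eventually_lt_nhds ht] with s hs
      exact Real.smoothTransition.zero_of_nonpos (by linarith)
    rw [this.deriv_eq, deriv_const]
  · have : Real.smoothTransition =ᶠ[𝓝 t] fun _ => 1 := by
      filter_upwards [eventually_gt_nhds ht] with s hs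
      exact Real.smoothTransition.one_of_one_le (by linarith)
    rw [this.deriv_eq, deriv_const]

section

variable {I : Type} [Fintype I] [DecidableEq I]

/-- smooth indicator of `g ≥ (k+1) L` -/
noncomputable def stp (R L : ℝ) (k : ℕ) (x : I → E3) : ℝ :=
  Real.smoothTransition (loc_upper_g 0 R x / L - k)

omit [DecidableEq I] in
theorem stp_smooth (R L : ℝ) (k : ℕ) : ContDiff ℝ SM (stp (I := I) R L k) := by
  unfold stp
  exact Real.smoothTransition.contDiff.comp
    (((loc_upper_g_smooth 0 R).div_const L).sub contDiff_const)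

omit [DecidableEq I] in
theorem stp01 (R L : ℝ) (k : ℕ) (x : I → E3) : 0 ≤ stp R L k x ∧ stp R L k x ≤ 1 :=
  ⟨Real.smoothTransition.nonneg _, Real.smoothTransition.le_one _⟩

theorem g_sym (R : ℝ) (i j : I) (x : I → E3) :
    loc_upper_g 0 R (fun k => x (Equiv.swap i j k)) = loc_upper_g 0 R x := by
  unfold loc_upper_g
  exact Equiv.sum_comp (Equiv.swap i j) fun k => cy 0 R (x k) ^ 2

theorem stp_sy {S : Type} (sp : I → S) (R L : ℝ) (k : ℕ) : Sy sp (stp (I := I) R L k) := by
  intro i j x _
  unfold stp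
  rw [g_sym]

omit [DecidableEq I] in
theorem stp_one (R : ℝ) {L : ℝ} (hL : 0 < L) (k : ℕ) (x : I → E3)
    (h : (k + 1) * L ≤ loc_upper_g 0 R x) : stp R L k x = 1 := by
  unfold stp
  apply Real.smoothTransition.one_of_one_le
  have : (k : ℝ) + 1 ≤ loc_upper_g 0 R x / L := by rw [le_div_iff₀ hL]; exact h
  linarith

omit [DecidableEq I] in
theorem stp_zero (R : ℝ) {L : ℝ} (hL : 0 < L) (k : ℕ) (x : I → E3)
    (h : loc_upper_g 0 R x ≤ k * L) : stp R L k x = 0 := by
  unfold stp
  apply Real.smoothTransition.zero_of_nonpos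
  have : loc_upper_g 0 R x / L ≤ k := by rw [div_le_iff₀ hL]; exact h
  linarith

omit [DecidableEq I] in
theorem g_fderiv (R : ℝ) (x : I → E3) :
    HasFDerivAt (loc_upper_g (I := I) 0 R) (∑ i, (2 * cy 0 R (x i)) •
      (fderiv ℝ (cy 0 R) (x i)).comp (ContinuousLinearMap.proj (R := ℝ) (φ := fun _ : I => E3) i)) x := by
  unfold loc_upper_g
  refine HasFDerivAt.fun_sum fun i _ => ?_
  have h1 : HasFDerivAt (cy 0 R) (fderiv ℝ (cy 0 R) (x i)) (x i) :=
    (((Pool.Agent.Helper780_CP.RH1.cy_smooth 0 R).differentiable (by simp)) _).hasFDerivAt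
  have h2 : HasFDerivAt (fun x : I → E3 => x i)
      (ContinuousLinearMap.proj (R := ℝ) (φ := fun _ : I => E3) i) x :=
    (ContinuousLinearMap.proj (R := ℝ) (φ := fun _ : I => E3) i).hasFDerivAt
  have h3 := (h1.comp x h2).pow 2
  simpa using h3

theorem g_fderiv_single (R : ℝ) (x : I → E3) (i : I) (e : E3) :
    fderiv ℝ (loc_upper_g (I := I) 0 R) x (Pi.single i e) =
      2 * cy 0 R (x i) * fderiv ℝ (cy 0 R) (x i) e := by
  rw [(g_fderiv R x).fderiv]
  rw [ContinuousLinearMap.sum_apply, Finset.sum_eq_single i]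
  · simp [ContinuousLinearMap.smul_apply]
  · intro j _ hj
    simp [ContinuousLinearMap.smul_apply, Pi.single_eq_of_ne hj]
  · intro h
    exact absurd (Finset.mem_univ i) h

/-- gradient of the level functions -/
theorem gr_stp : ∃ G : ℝ, 0 < G ∧ ∀ (I : Type) [Fintype I] [DecidableEq I] (R L : ℝ), 0 < R →
    0 < L → ∀ (k : ℕ) (x : I → E3), 0 ≤ gr (stp R L (k + 1)) x ∧
      gr (stp R L (k + 1)) x ≤ G / R ^ 2 * ((k + 2) / L) * stp R L k x ^ 2 := by
  obtain ⟨S, hS, hSb⟩ := sT_bd
  obtain ⟨K, hK0, hK⟩ := Pool.Agent.Helper780_CP.RH1.ct_bd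
  refine ⟨S ^ 2 * (12 * K ^ 2) + 1, by positivity, ?_⟩
  intro I _ _ R L hR hL k x
  have hg0 := loc_upper_g_nonneg 0 R x
  obtain ⟨t, ht⟩ : ∃ t, t = loc_upper_g 0 R x / L - ((k + 1 : ℕ) : ℝ) := ⟨_, rfl⟩
  have hd : ∀ (i : I) (e : E3), fderiv ℝ (stp R L (k + 1)) x (Pi.single i e) =
      deriv Real.smoothTransition t * (1 / L) * (2 * cy 0 R (x i) * fderiv ℝ (cy 0 R) (x i) e) := by
    intro i e
    have h1 : HasDerivAt Real.smoothTransition (deriv Real.smoothTransition t) t := by
      have h : ContDiff ℝ 1 Real.smoothTransition := Real.smoothTransition.contDiff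
      exact ((h.differentiable (by norm_num)) t).hasDerivAt
    have h2 : HasFDerivAt (loc_upper_g (I := I) 0 R) (fderiv ℝ (loc_upper_g (I := I) 0 R) x) x :=
      (g_fderiv R x).differentiableAt.hasFDerivAt
    have h3 : HasFDerivAt (fun x : I → E3 => loc_upper_g 0 R x / L - ((k + 1 : ℕ) : ℝ))
        ((1 / L) • fderiv ℝ (loc_upper_g (I := I) 0 R) x) x := by
      have := (h2.const_smul (1 / L)).sub_const ((k + 1 : ℕ) : ℝ)
      refine this.congr_of_eventuallyEq (Filter.Eventually.of_forall fun y => ?_)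
      show loc_upper_g 0 R y / L - _ = (1 / L) * loc_upper_g 0 R y - _
      ring
    rw [ht] at h1
    have h4 := (h1.comp_hasFDerivAt x h3).fderiv
    have h5 : stp R L (k + 1) = Real.smoothTransition ∘
      (fun x : I → E3 => loc_upper_g 0 R x / L - ((k + 1 : ℕ) : ℝ)) := rfl
    rw [h5, h4, ht]
    rw [ContinuousLinearMap.smul_apply, ContinuousLinearMap.smul_apply, g_fderiv_single]
    simp only [smul_eq_mul]
    ring
  have hnn : 0 ≤ gr (stp R L (k + 1)) x := by
    unfold gr
    exact Finset.sum_nonneg fun i _ => Finset.sum_nonneg fun l _ => sq_nonneg _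
  refine ⟨hnn, ?_⟩
  have e1 : gr (stp R L (k + 1)) x = deriv Real.smoothTransition t ^ 2 * (1 / L) ^ 2 *
      ∑ i, 4 * cy 0 R (x i) ^ 2 * ∑ l : Fin 3,
        (fderiv ℝ (cy 0 R) (x i) (EuclideanSpace.single l (1 : ℝ))) ^ 2 := by
    unfold gr
    rw [Finset.mul_sum]
    refine Finset.sum_congr rfl fun i _ => ?_
    rw [Finset.mul_sum, Finset.mul_sum]
    refine Finset.sum_congr rfl fun l _ => ?_
    rw [hd]
    ring
  by_cases hr : t < 0 ∨ 1 < t
  · rw [e1, sT_d0 t hr]
    have := stp01 R L k x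
    rw [zero_pow two_ne_zero, zero_mul, zero_mul]
    positivity
  · rw [not_or, not_lt, not_lt] at hr
    have h1 : stp R L k x = 1 := by
      apply stp_one R hL k x
      have h2 : ((k + 1 : ℕ) : ℝ) ≤ loc_upper_g 0 R x / L := by linarith [hr.1]
      rw [le_div_iff₀ hL] at h2
      push_cast at h2
      exact h2
    have h3 : loc_upper_g 0 R x ≤ ((k : ℝ) + 2) * L := by
      have h2 : loc_upper_g 0 R x / L ≤ (k : ℝ) + 2 := by
        have := hr.2
        rw [ht] at this
        push_cast at this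
        linarith
      rw [div_le_iff₀ hL] at h2
      exact h2
    rw [h1, one_pow, mul_one, e1]
    have h4 : ∑ i, 4 * cy 0 R (x i) ^ 2 * ∑ l : Fin 3,
        (fderiv ℝ (cy 0 R) (x i) (EuclideanSpace.single l (1 : ℝ))) ^ 2 ≤
        (12 * K ^ 2 / R ^ 2) * loc_upper_g 0 R x := by
      unfold loc_upper_g
      rw [Finset.mul_sum]
      refine Finset.sum_le_sum fun i _ => ?_
      have h5 := Pool.Agent.Helper780_CP.RH1.grad_cy hK 0 hR (x i)
      have h6 : ∑ l : Fin 3, (fderiv ℝ (cy 0 R) (x i) (EuclideanSpace.single l (1 : ℝ))) ^ 2 ≤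
          3 * K ^ 2 / R ^ 2 := by
        refine h5.trans ?_
        have : 0 ≤ 3 * K ^ 2 / R ^ 2 := by positivity
        split_ifs
        · rw [mul_one]
        · rw [mul_zero]; exact this
      have h7 := mul_le_mul_of_nonneg_left h6 (by positivity : 0 ≤ 4 * cy 0 R (x i) ^ 2)
      refine h7.trans (le_of_eq ?_)
      ring
    have h8 : deriv Real.smoothTransition t ^ 2 ≤ S ^ 2 := by
      rw [← sq_abs]
      exact pow_le_pow_left₀ (abs_nonneg _) (hSb t) 2
    calc deriv Real.smoothTransition t ^ 2 * (1 / L) ^ 2 * ∑ i, 4 * cy 0 R (x i) ^ 2 *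
          ∑ l : Fin 3, (fderiv ℝ (cy 0 R) (x i) (EuclideanSpace.single l (1 : ℝ))) ^ 2
        ≤ S ^ 2 * (1 / L) ^ 2 * ((12 * K ^ 2 / R ^ 2) * (((k : ℝ) + 2) * L)) := by
          apply mul_le_mul
          · exact mul_le_mul_of_nonneg_right h8 (by positivity)
          · exact h4.trans (mul_le_mul_of_nonneg_left h3 (by positivity))
          · exact Finset.sum_nonneg fun i _ => by positivity
          · positivity
      _ = S ^ 2 * (12 * K ^ 2) / R ^ 2 * (((k : ℝ) + 2) / L) := by
          field_simp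
      _ ≤ (S ^ 2 * (12 * K ^ 2) + 1) / R ^ 2 * (((k : ℝ) + 2) / L) := by
          apply mul_le_mul_of_nonneg_right _ (by positivity)
          apply div_le_div_of_nonneg_right _ (by positivity)
          linarith

end

end Run7.h213.Q
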